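import Pool.Agent.Y770.FM.Fac

/-!
# Families of systems of eigenvalues over the integral points of an affine space: mean values
-/

set_option autoImplicit false

open Finset NumberField IsDedekindDomain
open Pool.Agent.H921R2.TatePole (nm two_le_nm)
open Pool.Agent.Y770.EP (Sys SP PR mem_PR Good)
open Pool.Agent.Y770.FM (nm_pos' one_le_nm FN mem_FN GG mem_GG FP mem_FP card_FP nm_mem sum_large
  Z1 Z2 Z1_nonneg Z2_nonneg summable_two sum_range_field norm_sum_le_card finite_quot card_quot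
  norm_sum_γ)

namespace Pool.Agent.Y770.FA

section loc
variable {K : Type} [Field K] [NumberField K] {r N M : ℕ}

/-- a system of numbers of absolute value at most one, depending on residue classes -/
structure Loc (e : (Fin r → 𝓞 K) → HeightOneSpectrum (𝓞 K) → Fin N → ℂ) : Prop where
  le : ∀ t v j, ‖e t v j‖ ≤ 1
  congr : ∀ t t' v, (∀ i, t i - t' i ∈ v.asIdeal) → e t v = e t' v

/-- the trace -/
noncomputable def tr (e : (Fin r → 𝓞 K) → HeightOneSpectrum (𝓞 K) → Fin N → ℂ) (t : Fin r → 𝓞 K)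
    (v : HeightOneSpectrum (𝓞 K)) : ℂ := ∑ j, e t v j

/-- the coordinates in `S` are replaced by representatives of residue classes -/
noncomputable def mix {v : HeightOneSpectrum (𝓞 K)} (S : Finset (Fin r)) (t : Fin r → 𝓞 K)
    (τ : Fin r → 𝓞 K ⧸ v.asIdeal) : Fin r → 𝓞 K :=
  fun j => if j ∈ S then Quotient.out (τ j) else t j

/-- the mean value of the trace over the coordinates in `S` -/
noncomputable def FS (e : (Fin r → 𝓞 K) → HeightOneSpectrum (𝓞 K) → Fin N → ℂ)
    (S : Finset (Fin r)) (t : Fin r → 𝓞 K) (v : HeightOneSpectrum (𝓞 K)) : ℂ :=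
  (∑ᶠ τ : Fin r → 𝓞 K ⧸ v.asIdeal, tr e (mix S t τ) v) / (nm v : ℂ) ^ r

variable {e : (Fin r → 𝓞 K) → HeightOneSpectrum (𝓞 K) → Fin N → ℂ}

omit [NumberField K] in
lemma Loc.tr_le (he : Loc e) (t : Fin r → 𝓞 K) (v : HeightOneSpectrum (𝓞 K)) : ‖tr e t v‖ ≤ N := by
  have := norm_sum_le_card (fun j => he.le t v j)
  rw [mul_one] at this
  exact this

omit [NumberField K] in
lemma Loc.tr_congr (he : Loc e) {t t' : Fin r → 𝓞 K} {v : HeightOneSpectrum (𝓞 K)}
    (h : ∀ i, t i - t' i ∈ v.asIdeal) : tr e t v = tr e t' v := by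
  unfold tr
  rw [he.congr t t' v h]

lemma card_fun (v : HeightOneSpectrum (𝓞 K)) (r : ℕ) :
    Nat.card (Fin r → 𝓞 K ⧸ v.asIdeal) = nm v ^ r := by
  rw [Nat.card_fun, card_quot, Nat.card_eq_fintype_card, Fintype.card_fin]

lemma pow_ne (v : HeightOneSpectrum (𝓞 K)) (r : ℕ) : (nm v : ℂ) ^ r ≠ 0 := by
  have := nm_pos' v
  exact pow_ne_zero _ (by exact_mod_cast this.ne')

lemma FS_empty (t : Fin r → 𝓞 K) (v : HeightOneSpectrum (𝓞 K)) : FS e ∅ t v = tr e t v := by
  classical
  have hfin := finite_quot v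
  let _ : Fintype (𝓞 K ⧸ v.asIdeal) := Fintype.ofFinite _
  have h1 : ∀ τ : Fin r → 𝓞 K ⧸ v.asIdeal, mix ∅ t τ = t := fun τ => by
    funext j
    unfold mix
    simp
  unfold FS
  rw [finsum_eq_sum_of_fintype, Finset.sum_congr rfl fun τ _ => by rw [h1 τ], Finset.sum_const,
    card_univ, ← Nat.card_eq_fintype_card, card_fun, nsmul_eq_mul, Nat.cast_pow,
    mul_div_cancel_left₀ _ (pow_ne v r)]

lemma Loc.FS_le (he : Loc e) (S : Finset (Fin r)) (t : Fin r → 𝓞 K) (v : HeightOneSpectrum (𝓞 K)) :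
    ‖FS e S t v‖ ≤ N := by
  classical
  have hfin := finite_quot v
  let _ : Fintype (𝓞 K ⧸ v.asIdeal) := Fintype.ofFinite _
  unfold FS
  have hpos : (0 : ℝ) < (nm v : ℝ) ^ r := pow_pos (nm_pos' v) r
  rw [finsum_eq_sum_of_fintype, norm_div, norm_pow, Complex.norm_natCast, div_le_iff₀ hpos]
  refine (norm_sum_le _ _).trans ?_
  refine (Finset.sum_le_card_nsmul _ _ (N : ℝ) fun τ _ => he.tr_le _ v).trans ?_
  rw [card_univ, ← Nat.card_eq_fintype_card, card_fun, nsmul_eq_mul, mul_comm, Nat.cast_pow]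

lemma Loc.FS_congr (he : Loc e) (S : Finset (Fin r)) {t t' : Fin r → 𝓞 K}
    {v : HeightOneSpectrum (𝓞 K)} (h : ∀ i, t i - t' i ∈ v.asIdeal) : FS e S t v = FS e S t' v := by
  unfold FS
  congr 1
  refine finsum_congr fun τ => he.tr_congr fun i => ?_
  unfold mix
  split_ifs
  · rw [sub_self]
    exact v.asIdeal.zero_mem
  · exact h i

omit [NumberField K] in
lemma mix_congr {v : HeightOneSpectrum (𝓞 K)} {S : Finset (Fin r)} {t t' : Fin r → 𝓞 K}
    (h : ∀ i, i ∉ S → t i = t' i) (τ : Fin r → 𝓞 K ⧸ v.asIdeal) : mix S t τ = mix S t' τ := by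
  funext j
  unfold mix
  split_ifs with hj
  · rfl
  · exact h j hj

lemma FS_indep {S : Finset (Fin r)} {t t' : Fin r → 𝓞 K} (h : ∀ i, i ∉ S → t i = t' i)
    (v : HeightOneSpectrum (𝓞 K)) : FS e S t v = FS e S t' v := by
  unfold FS
  congr 1
  exact finsum_congr fun τ => by rw [mix_congr h]

/-- averaging over one more coordinate -/
lemma Loc.FS_sum (he : Loc e) {S : Finset (Fin r)} {i : Fin r} (hi : i ∉ S) (t : Fin r → 𝓞 K)
    {v : HeightOneSpectrum (𝓞 K)} {p : ℕ} (hp : p.Prime) (hv : nm v = p) (b : 𝓞 K) :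
    ∑ j ∈ range p, FS e S (Function.update t i (b + ((j : ℤ) : 𝓞 K))) v =
      p * FS e (insert i S) t v := by
  classical
  have hmax : v.asIdeal.IsMaximal := v.isMaximal
  have hfin := finite_quot v
  let _ : Fintype (𝓞 K ⧸ v.asIdeal) := Fintype.ofFinite _
  have hcard : Fintype.card (𝓞 K ⧸ v.asIdeal) = p := by
    rw [← hv, ← card_quot, Nat.card_eq_fintype_card]
  let _ : Field (𝓞 K ⧸ v.asIdeal) := Ideal.Quotient.field v.asIdeal
  set H : (𝓞 K ⧸ v.asIdeal) → (Fin r → 𝓞 K ⧸ v.asIdeal) → ℂ := fun c τ =>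
    tr e (Function.update (mix S t τ) i (Quotient.out c)) v with hH
  have h1 : ∀ (j : ℕ) (τ : Fin r → 𝓞 K ⧸ v.asIdeal),
      tr e (mix S (Function.update t i (b + ((j : ℤ) : 𝓞 K))) τ) v =
        H (Ideal.Quotient.mk v.asIdeal b + ((j : ℕ) : 𝓞 K ⧸ v.asIdeal)) τ := by
    intro j τ
    rw [hH]
    refine he.tr_congr fun l => ?_
    by_cases hl : l = i
    · subst hl
      unfold mix
      rw [if_neg hi, Function.update_self, Function.update_self, ← Ideal.Quotient.eq_zero_iff_mem,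
        map_sub, sub_eq_zero, Ideal.Quotient.mk_out, map_add, map_intCast, Int.cast_natCast]
    · rw [Function.update_of_ne hl]
      unfold mix
      split_ifs
      · rw [sub_self]; exact v.asIdeal.zero_mem
      · rw [Function.update_of_ne hl, sub_self]; exact v.asIdeal.zero_mem
  have h2 : ∀ τ : Fin r → 𝓞 K ⧸ v.asIdeal, tr e (mix (insert i S) t τ) v = H (τ i) τ := by
    intro τ
    rw [hH]
    dsimp only
    congr 1
    funext l
    by_cases hl : l = i
    · subst hl
      rw [Function.update_self]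
      unfold mix
      rw [if_pos (mem_insert_self _ _)]
    · rw [Function.update_of_ne hl]
      unfold mix
      simp only [mem_insert, hl, false_or]
  have h3 : ∀ (c x : 𝓞 K ⧸ v.asIdeal) (τ : Fin r → 𝓞 K ⧸ v.asIdeal),
      H c (Function.update τ i x) = H c τ := by
    intro c x τ
    rw [hH]
    dsimp only
    congr 1
    funext l
    by_cases hl : l = i
    · subst hl
      rw [Function.update_self, Function.update_self]
    · rw [Function.update_of_ne hl, Function.update_of_ne hl]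
      unfold mix
      rw [Function.update_of_ne hl]
  have h4 : ∑ τ : Fin r → 𝓞 K ⧸ v.asIdeal, ∑ c, H c τ = ∑ τ : Fin r → 𝓞 K ⧸ v.asIdeal,
      ∑ _c : 𝓞 K ⧸ v.asIdeal, H (τ i) τ := by
    rw [← Fintype.sum_prod_type' (f := fun τ c => H c τ),
      ← Fintype.sum_prod_type' (f := fun (τ : Fin r → 𝓞 K ⧸ v.asIdeal) (_ : 𝓞 K ⧸ v.asIdeal) =>
        H (τ i) τ)]
    refine Fintype.sum_bijective (fun x : (Fin r → 𝓞 K ⧸ v.asIdeal) × (𝓞 K ⧸ v.asIdeal) =>
      (Function.update x.1 i x.2, x.1 i)) (Function.Involutive.bijective ?_) _ _ ?_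
    · rintro ⟨τ, c⟩
      simp only [Function.update_idem, Function.update_eq_self, Function.update_self]
    · rintro ⟨τ, c⟩
      simp only [Function.update_self]
      rw [h3]
  unfold FS
  rw [hv, ← Finset.sum_div, ← mul_div_assoc]
  congr 1
  simp_rw [finsum_eq_sum_of_fintype]
  rw [Finset.sum_comm]
  rw [Finset.sum_congr rfl fun τ _ => Finset.sum_congr rfl fun j _ => h1 j τ]
  rw [Finset.sum_congr rfl fun τ _ => sum_range_field hp hcard (fun c => H c τ)
    (Ideal.Quotient.mk v.asIdeal b), h4, Finset.mul_sum]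
  refine Finset.sum_congr rfl fun τ _ => ?_
  rw [Finset.sum_const, card_univ, hcard, nsmul_eq_mul, h2]

/-- the mean value of the trace over all residue classes -/
noncomputable def mm (e : (Fin r → 𝓞 K) → HeightOneSpectrum (𝓞 K) → Fin N → ℂ)
    (v : HeightOneSpectrum (𝓞 K)) : ℂ :=
  (∑ᶠ τ : Fin r → 𝓞 K ⧸ v.asIdeal, tr e (fun j => Quotient.out (τ j)) v) / (nm v : ℂ) ^ r

lemma FS_univ (t : Fin r → 𝓞 K) (v : HeightOneSpectrum (𝓞 K)) : FS e univ t v = mm e v := by
  unfold FS mm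
  congr 1
  refine finsum_congr fun τ => ?_
  congr 1
  funext j
  unfold mix
  rw [if_pos (mem_univ _)]

lemma Loc.mm_le (he : Loc e) (v : HeightOneSpectrum (𝓞 K)) : ‖mm e v‖ ≤ N := by
  rw [← FS_univ 0 v]
  exact he.FS_le _ _ _

/-- the first `k` coordinates -/
def TT (r k : ℕ) : Finset (Fin r) := univ.filter fun j => j.val < k

lemma TT_zero (r : ℕ) : TT r 0 = ∅ := by
  unfold TT
  simp

lemma TT_self (r : ℕ) : TT r r = univ := by
  unfold TT
  simp

lemma TT_succ {r k : ℕ} (hk : k < r) : TT r (k + 1) = insert ⟨k, hk⟩ (TT r k) := by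
  unfold TT
  ext j
  simp only [mem_filter, mem_univ, true_and, mem_insert, Fin.ext_iff]
  omega

lemma notMem_TT {r k : ℕ} (hk : k < r) : (⟨k, hk⟩ : Fin r) ∉ TT r k := by
  unfold TT
  simp

/-- the difference of two consecutive mean values -/
noncomputable def DS (e : (Fin r → 𝓞 K) → HeightOneSpectrum (𝓞 K) → Fin N → ℂ) (k : ℕ)
    (t : Fin r → 𝓞 K) (v : HeightOneSpectrum (𝓞 K)) : ℂ := FS e (TT r k) t v - FS e (TT r (k + 1)) t v

lemma DS_sum (t : Fin r → 𝓞 K) (v : HeightOneSpectrum (𝓞 K)) :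
    ∑ k ∈ range r, DS e k t v = tr e t v - mm e v := by
  unfold DS
  rw [Finset.sum_range_sub', TT_zero, TT_self, FS_empty, FS_univ]

/-- the shifted point -/
def pt (b : Fin r → 𝓞 K) (n : Fin r → ℤ) : Fin r → 𝓞 K := fun i => b i + (n i : 𝓞 K)

omit [NumberField K] in
lemma pt_update (b : Fin r → 𝓞 K) (n : Fin r → ℤ) (i : Fin r) (m : ℤ) :
    pt b (Function.update n i m) = Function.update (pt b n) i (b i + (m : 𝓞 K)) := by
  classical
  funext l
  unfold pt
  by_cases hl : l = i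
  · subst hl
    rw [Function.update_self, Function.update_self]
  · rw [Function.update_of_ne hl, Function.update_of_ne hl]

lemma Loc.DS_le (he : Loc e) (k : ℕ) (t : Fin r → 𝓞 K) (v : HeightOneSpectrum (𝓞 K)) :
    ‖DS e k t v‖ ≤ 2 * N := by
  unfold DS
  refine (norm_sub_le _ _).trans ?_
  linarith [he.FS_le (TT r k) t v, he.FS_le (TT r (k + 1)) t v]

lemma Loc.DS_per (he : Loc e) (k : ℕ) (b : Fin r → 𝓞 K) (n : Fin r → ℤ) (i : Fin r) (m : ℤ)
    {v : HeightOneSpectrum (𝓞 K)} {p : ℕ} (hv : nm v = p) :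
    DS e k (pt b (Function.update n i (m + p))) v = DS e k (pt b (Function.update n i m)) v := by
  have h0 : ∀ l, pt b (Function.update n i (m + p)) l - pt b (Function.update n i m) l ∈
      v.asIdeal := by
    intro l
    rw [pt_update, pt_update]
    by_cases hl : l = i
    · subst hl
      rw [Function.update_self, Function.update_self]
      have h2 := nm_mem v
      rw [hv] at h2
      have h3 : b l + ((m + (p : ℤ) : ℤ) : 𝓞 K) - (b l + (m : 𝓞 K)) = ((p : ℕ) : 𝓞 K) := by
        push_cast; ring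
      rw [h3]
      exact h2
    · rw [Function.update_of_ne hl, Function.update_of_ne hl, sub_self]
      exact v.asIdeal.zero_mem
  unfold DS
  rw [he.FS_congr _ h0, he.FS_congr _ h0]

lemma Loc.DS_mean (he : Loc e) {k : ℕ} (hk : k < r) (b : Fin r → 𝓞 K) (n : Fin r → ℤ)
    {v : HeightOneSpectrum (𝓞 K)} {p : ℕ} (hp : p.Prime) (hv : nm v = p) :
    ∑ j ∈ range p, DS e k (pt b (Function.update n ⟨k, hk⟩ (j : ℤ))) v = 0 := by
  unfold DS
  rw [Finset.sum_sub_distrib]
  have h1 : ∑ j ∈ range p, FS e (TT r k) (pt b (Function.update n ⟨k, hk⟩ (j : ℤ))) v =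
      p * FS e (TT r (k + 1)) (pt b n) v := by
    rw [TT_succ hk, ← he.FS_sum (notMem_TT hk) (pt b n) hp hv (b ⟨k, hk⟩)]
    exact Finset.sum_congr rfl fun j _ => by rw [pt_update]
  have h2 : ∀ j ∈ range p, FS e (TT r (k + 1)) (pt b (Function.update n ⟨k, hk⟩ (j : ℤ))) v =
      FS e (TT r (k + 1)) (pt b n) v := by
    intro j _
    rw [pt_update]
    refine FS_indep (fun l hl => ?_) v
    rw [TT_succ hk, mem_insert, not_or] at hl
    rw [Function.update_of_ne hl.1]
  rw [h1, Finset.sum_congr rfl h2, Finset.sum_const, card_range, nsmul_eq_mul, sub_self]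

end loc

end Pool.Agent.Y770.FA
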