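import Mathlib

/-!
# Counting the exceptions in a box, direction by direction
-/

set_option autoImplicit false

open Finset

namespace Pool.Agent.Y770.FA

/-- Exceptions in one direction. -/
lemma dir_count {r : ℕ} (X : ℕ) (i : Fin r) (P : (Fin r → ℤ) → Prop) [DecidablePred P] (l : ℕ)
    (h : ∀ n : Fin r → ℤ, ((Icc (-(X : ℤ)) X).filter fun m => P (Function.update n i m)).card ≤ l) :
    ((Fintype.piFinset fun _ : Fin r => Icc (-(X : ℤ)) X).filter P).card ≤
      l * (2 * X + 1) ^ (r - 1) := by
  classical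
  set F := (Fintype.piFinset fun _ : Fin r => Icc (-(X : ℤ)) X).filter P with hF
  have h1 : ∀ a ∈ F.image (fun n => Function.update n i 0),
      (F.filter fun n => Function.update n i 0 = a).card ≤ l := by
    intro a _
    refine le_trans ?_ (h a)
    refine Finset.card_le_card_of_injOn (fun n => n i) ?_ ?_
    · intro n hn
      simp only [hF, coe_filter, mem_filter, Set.mem_ofPred_eq, Fintype.mem_piFinset] at hn ⊢
      obtain ⟨⟨h2, h3⟩, h4⟩ := hn
      refine ⟨h2 i, ?_⟩
      rw [← h4, Function.update_idem, Function.update_eq_self]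
      exact h3
    · intro n hn n' hn' hnn
      simp only [hF, coe_filter, mem_filter, Set.mem_ofPred_eq] at hn hn'
      have h2 : n i = n' i := hnn
      have h3 : Function.update n i 0 = Function.update n' i 0 := hn.2.trans hn'.2.symm
      calc n = Function.update (Function.update n i 0) i (n i) := by
            rw [Function.update_idem, Function.update_eq_self]
        _ = Function.update (Function.update n' i 0) i (n' i) := by rw [h3, h2]
        _ = n' := by rw [Function.update_idem, Function.update_eq_self]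
  have h2 := Finset.card_le_mul_card_image F l h1
  refine h2.trans (Nat.mul_le_mul_left l ?_)
  have h3 : F.image (fun n => Function.update n i 0) ⊆
      Fintype.piFinset fun j : Fin r => if j = i then ({0} : Finset ℤ) else Icc (-(X : ℤ)) X := by
    intro n hn
    obtain ⟨n', hn', rfl⟩ := mem_image.1 hn
    rw [Fintype.mem_piFinset]
    intro j
    by_cases hj : j = i
    · subst hj
      simp
    · rw [if_neg hj, Function.update_of_ne hj]
      exact (Fintype.mem_piFinset.1 (mem_filter.1 hn').1) j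
  refine (card_le_card h3).trans (le_of_eq ?_)
  rw [Fintype.card_piFinset, ← Finset.mul_prod_erase univ _ (mem_univ i)]
  rw [if_pos rfl, card_singleton, one_mul]
  have h4 : ∀ j ∈ univ.erase i, (if j = i then ({0} : Finset ℤ) else Icc (-(X : ℤ)) X).card =
      2 * X + 1 := by
    intro j hj
    rw [if_neg (mem_erase.1 hj).1, Int.card_Icc]
    omega
  rw [Finset.prod_congr rfl h4, Finset.prod_const, card_erase_of_mem (mem_univ i), card_univ,
    Fintype.card_fin]

/-- Exceptions in all directions. -/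
lemma box_count {r : ℕ} (X : ℕ) (P : Fin r → (Fin r → ℤ) → Prop) (L : ℝ) (hL : 0 ≤ L)
    (h : ∀ i, ∀ n : Fin r → ℤ, ({m : ℤ | |m| ≤ X ∧ P i (Function.update n i m)}.ncard : ℝ) ≤ L) :
    ({n : Fin r → ℤ | (∀ i, |n i| ≤ X) ∧ ∃ i, P i n}.ncard : ℝ) ≤
      r * (L * (2 * X + 1 : ℝ) ^ (r - 1)) := by
  classical
  set F : Fin r → Finset (Fin r → ℤ) := fun i =>
    (Fintype.piFinset fun _ : Fin r => Icc (-(X : ℤ)) X).filter (P i) with hF
  have h1 : ∀ i, ((F i).card : ℝ) ≤ L * (2 * X + 1 : ℝ) ^ (r - 1) := by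
    intro i
    have h2 : ∀ n : Fin r → ℤ, ((Icc (-(X : ℤ)) X).filter fun m => P i (Function.update n i m)).card ≤
        ⌊L⌋₊ := by
      intro n
      refine Nat.le_floor ?_
      refine le_trans (le_of_eq ?_) (h i n)
      rw [← Set.ncard_coe_finset]
      congr 2
      ext m
      simp only [coe_filter, mem_Icc, Set.mem_ofPred_eq, abs_le]
    have h3 := dir_count X i (P i) ⌊L⌋₊ h2
    have h4 : ((F i).card : ℝ) ≤ ((⌊L⌋₊ * (2 * X + 1) ^ (r - 1) : ℕ) : ℝ) := by exact_mod_cast h3
    refine h4.trans ?_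
    push_cast
    exact mul_le_mul_of_nonneg_right (Nat.floor_le hL) (by positivity)
  have h5 : {n : Fin r → ℤ | (∀ i, |n i| ≤ X) ∧ ∃ i, P i n} ⊆ (univ.biUnion F : Finset _) := by
    rintro n ⟨h6, i, h7⟩
    rw [Finset.mem_coe, mem_biUnion]
    refine ⟨i, mem_univ i, ?_⟩
    rw [hF]
    dsimp only
    rw [mem_filter, Fintype.mem_piFinset]
    exact ⟨fun j => mem_Icc.2 (abs_le.1 (h6 j)), h7⟩
  have h8 := Set.ncard_le_ncard h5 (Finset.finite_toSet _)
  rw [Set.ncard_coe_finset] at h8
  have h9 : ((univ.biUnion F).card : ℝ) ≤ ∑ i, ((F i).card : ℝ) := by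
    exact_mod_cast card_biUnion_le
  refine (Nat.cast_le.2 h8).trans (h9.trans ?_)
  refine (Finset.sum_le_card_nsmul _ _ _ fun i _ => h1 i).trans ?_
  rw [card_univ, Fintype.card_fin, nsmul_eq_mul]

end Pool.Agent.Y770.FA
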