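import Pool.Agent.Y770.FA.Strip
import Pool.Agent.Y770.FA.Box
import Pool.Agent.Y770.FM.Prod

/-!
# Almost all members of a family over an affine space: the logarithms
-/

set_option autoImplicit false

open Finset NumberField IsDedekindDomain Filter
open Pool.Agent.H921R2.TatePole (nm two_le_nm nm_summable)
open Pool.Agent.Y770.EP (Sys SP PR mem_PR Good almost_all ev_log ev_rpow)
open Pool.Agent.Y770.FM (A1 A2 FN GG mem_FN mem_GG Z1 Z2 Z1_nonneg Z2_nonneg sum_FN)

namespace Pool.Agent.Y770.FA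

section nf
variable {K : Type} [Field K] [NumberField K] {r N M : ℕ}

theorem final_log (K : Type) [Field K] [NumberField K] (r N M : ℕ) (δ : ℝ) (hδ : 0 < δ) :
    ∃ c : ℝ, c = min δ (1 / 2) / 4000 ∧ 0 < c ∧ c ≤ δ / 4 ∧ c ≤ 1 / 4 ∧ ∀ η : ℝ, 0 < η → ∃ A : ℝ, 0 < A ∧ ∃ X₀ : ℕ, ∀ X : ℕ, X₀ ≤ X →
      ∀ e : (Fin r → 𝓞 K) → HeightOneSpectrum (𝓞 K) → Fin N → ℂ, Loc e → ∀ b : Fin r → 𝓞 K, ∀ m : ℕ,
      (m : ℝ) ≤ (X : ℝ) ^ c → ∀ γ : Fin m → HeightOneSpectrum (𝓞 K) → Fin M → ℂ,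
        (∀ k v l, ‖γ k v l‖ ≤ 1) →
        ({n : Fin r → ℤ | (∀ i, |n i| ≤ X) ∧ ¬ ∀ k, A1 δ c X (ED e (γ k) (pt b n)) ∧
          A2 η A c X (ED e (γ k) (pt b n))}.ncard : ℝ) ≤ (X : ℝ) ^ (r - c) := by
  classical
  obtain ⟨d, hd⟩ : ∃ d : ℝ, d = min δ (1 / 2) := ⟨_, rfl⟩
  have hd0 : 0 < d := by rw [hd]; positivity
  have hd1 : d ≤ 1 / 2 := by rw [hd]; exact min_le_right _ _
  have hdδ : d ≤ δ := by rw [hd]; exact min_le_left _ _
  obtain ⟨T0, hT02, hT0⟩ := almost_all (δ := d) (M := Module.finrank ℚ K * (2 * (N * M)) + 1) hd0 hd1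
    (by have : (0 : ℝ) ≤ Module.finrank ℚ K * (2 * (N * M)) := by positivity
        linarith)
  obtain ⟨C0, σ₀, hσ₀, hC0⟩ := Pool.Agent.TH942.ES.nf_log_sum K
  obtain ⟨C, hC⟩ : ∃ C : ℝ, C = max C0 0 := ⟨_, rfl⟩
  have hC0' : 0 ≤ C := by rw [hC]; exact le_max_right _ _
  have hCC : C0 ≤ C := by rw [hC]; exact le_max_left _ _
  obtain ⟨Z, hZ⟩ : ∃ Z : ℝ, Z = (r + 1) + ((N * M) * Z1 K d + 2 * (N * M) * Z2 K d) := ⟨_, rfl⟩
  have hZ1 : 1 ≤ Z := by
    have h1 := Z1_nonneg (K := K) d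
    have h2 := Z2_nonneg (K := K) d
    rw [hZ]
    have : 0 ≤ (N * M) * Z1 K d + 2 * (N * M) * Z2 K d := by positivity
    have : (0 : ℝ) ≤ r := Nat.cast_nonneg r
    linarith
  have hZr : r + ((N * M) * Z1 K d + 2 * (N * M) * Z2 K d) ≤ Z := by rw [hZ]; linarith
  obtain ⟨c, hc⟩ : ∃ c : ℝ, c = d / 4000 := ⟨_, rfl⟩
  have hc0 : 0 < c := by rw [hc]; positivity
  have hdc : d = 4000 * c := by rw [hc]; ring
  have hc1 : c ≤ 1 / 8000 := by rw [hc]; linarith
  refine ⟨c, by rw [hc, hd], hc0, by linarith, by linarith, fun η hη => ?_⟩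
  obtain ⟨η', hη'⟩ : ∃ η' : ℝ, η' = min η 1 := ⟨_, rfl⟩
  have hη0 : 0 < η' := by rw [hη']; positivity
  have hη1 : η' ≤ 1 := by rw [hη']; exact min_le_right _ _
  have hηη : η' ≤ η := by rw [hη']; exact min_le_left _ _
  obtain ⟨A, hA⟩ : ∃ A : ℝ, A = 24 * (N * M) * C / (c * η') + 1 := ⟨_, rfl⟩
  have hA1 : 1 ≤ A := by
    rw [hA]
    have : 0 ≤ 24 * (N * M) * C / (c * η') := by positivity
    linarith
  have hA0 : 0 < A := by linarith
  have ev : ∀ᶠ X : ℕ in atTop, 2 ≤ Real.log X ∧ (r : ℝ) * 3 ^ r ≤ (X : ℝ) ^ c ∧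
      4 * Z ≤ (Real.log X) ^ (249 : ℝ) ∧ 4 * Z / η' ≤ (Real.log X) ^ (249 : ℝ) ∧
      A / Real.log X < σ₀ ∧ 4 ≤ (X : ℝ) ^ (c / 2) ∧ 2 * (Real.log X) ^ (4 / d) ≤ (Real.log X) ^ (1 / c) := by
    have e1 : ∀ᶠ X : ℕ in atTop, 2 ≤ (Real.log X) ^ (1 : ℝ) := ev_log one_pos
    have e2 : ∀ᶠ X : ℕ in atTop, A / σ₀ + 1 ≤ (Real.log X) ^ (1 : ℝ) := ev_log one_pos
    filter_upwards [e1, ev_rpow (C := (r : ℝ) * 3 ^ r) hc0, ev_log (C := 4 * Z) (show (0 : ℝ) < 249 by norm_num),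
      ev_log (C := 4 * Z / η') (show (0 : ℝ) < 249 by norm_num), e2,
      ev_rpow (C := 4) (show 0 < c / 2 by positivity)] with X a1 a2 a3 a4 a5 a6
    rw [Real.rpow_one] at a1 a5
    have hL0 : 0 < Real.log X := by linarith
    refine ⟨a1, a2, a3, a4, ?_, a6, ?_⟩
    · rw [div_lt_iff₀ hL0, mul_comm, ← div_lt_iff₀ hσ₀]
      linarith
    · have h1 : (Real.log X) ^ (1 / c) = (Real.log X) ^ (4 / d) * (Real.log X) ^ (1 / c - 4 / d) := by
        rw [← Real.rpow_add hL0]; congr 1; ring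
      have h2 : (1 : ℝ) ≤ 1 / c - 4 / d := by
        rw [hdc]
        have h3 : 1 / c - 4 / (4000 * c) = (999 / 1000) / c := by field_simp; norm_num
        rw [h3, le_div_iff₀ hc0]
        linarith
      have h3 : (Real.log X) ^ (1 : ℝ) ≤ (Real.log X) ^ (1 / c - 4 / d) :=
        Real.rpow_le_rpow_of_exponent_le (by linarith) h2
      rw [Real.rpow_one] at h3
      rw [h1, mul_comm]
      exact mul_le_mul_of_nonneg_left (a1.trans h3) (by positivity)
  obtain ⟨X1, hX1⟩ := eventually_atTop.1 ev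
  refine ⟨A, hA0, max X1 (max T0 3), fun X hX e he b m hm γ hγ => ?_⟩
  obtain ⟨hL2, hX3, hZL, hZη, hAσ, hX4, hlog⟩ := hX1 X ((le_max_left _ _).trans hX)
  have hXT : T0 ≤ X := ((le_max_left _ _).trans (le_max_right _ _)).trans hX
  have hX3' : 3 ≤ X := ((le_max_right _ _).trans (le_max_right _ _)).trans hX
  have hXr : (3 : ℝ) ≤ X := by exact_mod_cast hX3'
  have hX0 : (0 : ℝ) < X := by linarith
  have hL0 : 0 < Real.log X := by linarith
  -- the box
  obtain ⟨T, hT⟩ : ∃ T : ℕ, T = 2 * X + 1 := ⟨_, rfl⟩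
  have hTr : (T : ℝ) = 2 * X + 1 := by rw [hT]; push_cast; ring
  have hXT' : (X : ℝ) ≤ T := by rw [hTr]; linarith
  have hT3 : (T : ℝ) ≤ 3 * X := by rw [hTr]; linarith
  have hTc : (X : ℝ) ^ c ≤ (T : ℝ) ^ (d / 2000) := by
    calc (X : ℝ) ^ c ≤ (T : ℝ) ^ c := Real.rpow_le_rpow hX0.le hXT' hc0.le
      _ ≤ (T : ℝ) ^ (d / 2000) := Real.rpow_le_rpow_of_exponent_le (by linarith) (by rw [hdc]; linarith)
  have hTlog : (Real.log T) ^ (4 / d) ≤ (Real.log X) ^ (1 / c) := by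
    have h1 : Real.log T ≤ 2 * Real.log X := by
      have h2 : (T : ℝ) ≤ (X : ℝ) ^ 2 := by nlinarith
      have h3 := Real.log_le_log (by linarith) h2
      rwa [Real.log_pow, Nat.cast_ofNat] at h3
    have hT0' : 0 ≤ Real.log T := Real.log_nonneg (by linarith)
    have h2 : Real.log T ≤ Real.log X ^ (2 : ℝ) := by
      rw [Real.rpow_two]
      nlinarith
    calc (Real.log T) ^ (4 / d) ≤ (Real.log X ^ (2 : ℝ)) ^ (4 / d) :=
          Real.rpow_le_rpow hT0' h2 (by positivity)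
      _ = (Real.log X) ^ (8 / d) := by rw [← Real.rpow_mul hL0.le]; congr 1; ring
      _ ≤ (Real.log X) ^ (1 / c) := by
          refine Real.rpow_le_rpow_of_exponent_le (by linarith) ?_
          rw [hdc]
          have h3 : 8 / (4000 * c) = (1 / 500) * (1 / c) := by field_simp; norm_num
          rw [h3]
          have : 0 < 1 / c := by positivity
          linarith
  -- good `n`
  have hgood : ∀ n : Fin r → ℤ, (∀ k, ∀ i < r, Good d (d / 2000) T fun p => gp e (γ k) b i p n) → ∀ k,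
      A1 δ c X (ED e (γ k) (pt b n)) ∧ A2 η A c X (ED e (γ k) (pt b n)) := by
    intro n hn k
    -- the logarithms
    have hlogs : ∀ s : ℂ, 1 / 2 + d ≤ s.re → |s.im| ≤ (X : ℝ) ^ c → ∀ y x : ℕ,
        (Real.log X) ^ (1 / c) ≤ y → (x : ℝ) ≤ (X : ℝ) ^ c →
        ‖∑ v ∈ GG K y x, ED e (γ k) (pt b n) s v‖ ≤ Z * (y : ℝ) ^ (-(250 * c)) := by
      intro s hs hs2 y x hy hx
      have hy4 : 4 ≤ y := by
        have h1 : (4 : ℝ) ≤ (Real.log X) ^ (1 / c) := by
          have h2 : (2 : ℝ) ≤ 1 / c := by rw [le_div_iff₀ hc0]; linarith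
          calc (4 : ℝ) = 2 ^ (2 : ℝ) := by norm_num
            _ ≤ (Real.log X) ^ (2 : ℝ) := Real.rpow_le_rpow (by norm_num) hL2 (by norm_num)
            _ ≤ (Real.log X) ^ (1 / c) := Real.rpow_le_rpow_of_exponent_le (by linarith) h2
        exact_mod_cast h1.trans hy
      have h1 := strip_log he (hγ k) hd0 (hn k) hs (hs2.trans hTc) hy4 (hTlog.trans hy) (hx.trans hTc)
      have h2 : d / 16 = 250 * c := by rw [hdc]; ring
      rw [h2] at h1
      exact h1.trans (mul_le_mul_of_nonneg_right hZr (by positivity))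
    have hypow : ∀ y : ℕ, (Real.log X) ^ (1 / c) ≤ y → (Real.log X) ^ (249 : ℝ) ≤ (y : ℝ) ^ (249 * c) := by
      intro y hy
      have h1 := Real.rpow_le_rpow (by positivity) hy (show 0 ≤ 249 * c by positivity)
      refine le_trans (le_of_eq ?_) h1
      rw [← Real.rpow_mul hL0.le]
      congr 1
      field_simp
    have hy1 : ∀ y : ℕ, (Real.log X) ^ (1 / c) ≤ y → (1 : ℝ) ≤ y := fun y hy => by
      refine le_trans ?_ hy
      exact Real.one_le_rpow (by linarith) (by positivity)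
    constructor
    · intro s hs hs2 y x hy hx
      have hs' : 1 / 2 + d ≤ s.re := by linarith
      have hyr := hy1 y hy
      have hy0 : (0 : ℝ) < y := by linarith
      have h1 := hlogs s hs' hs2 y x hy hx
      have h2 : 4 * (Z * (y : ℝ) ^ (-(250 * c))) ≤ (y : ℝ) ^ (-c) := by
        calc 4 * (Z * (y : ℝ) ^ (-(250 * c))) = (4 * Z) * (y : ℝ) ^ (-(250 * c)) := by ring
          _ ≤ (y : ℝ) ^ (249 * c) * (y : ℝ) ^ (-(250 * c)) :=
              mul_le_mul_of_nonneg_right (hZL.trans (hypow y hy)) (by positivity)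
          _ = (y : ℝ) ^ (-c) := by rw [← Real.rpow_add hy0]; congr 1; ring
      linarith
    · intro s hs hs2 y hy
      have hyr := hy1 y hy
      have hε0 : 0 < A / Real.log X := by positivity
      have hsre : 1 < s.re := by linarith
      obtain ⟨hsum, hCb⟩ := hC0 (A / Real.log X) hε0 hAσ
      obtain ⟨x0, hx0⟩ : ∃ x0 : ℕ, x0 = ⌊(X : ℝ) ^ c⌋₊ := ⟨_, rfl⟩
      have hXc0 : (0 : ℝ) ≤ (X : ℝ) ^ c := by positivity
      have hx0le : (x0 : ℝ) ≤ (X : ℝ) ^ c := by rw [hx0]; exact Nat.floor_le hXc0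
      have hx0lo : (X : ℝ) ^ (c / 2) ≤ x0 := by
        have h1 := Nat.lt_floor_add_one ((X : ℝ) ^ c)
        rw [← hx0] at h1
        have h2 : (X : ℝ) ^ c = (X : ℝ) ^ (c / 2) * (X : ℝ) ^ (c / 2) := by
          rw [← Real.rpow_add hX0]; congr 1; ring
        nlinarith
      have htail : ∀ z : ℕ, x0 ≤ z → ‖∑' v, ED e (γ k) (pt b n) s v -
          ∑ v ∈ FN K z, ED e (γ k) (pt b n) s v‖ ≤ η' / 4 := by
        intro z hz
        have hzr : (X : ℝ) ^ (c / 2) ≤ z := hx0lo.trans (by exact_mod_cast hz)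
        have hz2 : 2 ≤ z := by
          have : (2 : ℝ) ≤ z := by linarith
          exact_mod_cast this
        refine (tail_le he (hγ k) hε0 hsum (hCb.trans hCC) hs hz2).trans ?_
        have hlogz : c / 2 * Real.log X ≤ Real.log z := by
          have h1 := Real.log_le_log (by positivity) hzr
          rwa [Real.log_rpow hX0] at h1
        have hlz0 : 0 < c / 2 * Real.log X := by positivity
        calc 3 * (N * M) * (C / (A / Real.log X)) / Real.log z
            ≤ 3 * (N * M) * (C / (A / Real.log X)) / (c / 2 * Real.log X) :=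
              div_le_div_of_nonneg_left (by positivity) hlz0 hlogz
          _ = (6 * (N * M) * C) / (c * A) := by field_simp; ring
          _ ≤ η' / 4 := by
              rw [div_le_iff₀ (by positivity)]
              have h5 : 24 * (N * M) * C / (c * η') ≤ A := by rw [hA]; linarith
              rw [div_le_iff₀ (by positivity)] at h5
              linarith
      have hrest : ‖∑' v, ED e (γ k) (pt b n) s v -
          ∑ v ∈ FN K y, ED e (γ k) (pt b n) s v‖ ≤ η' / 2 := by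
        by_cases hyx : x0 ≤ y
        · exact (htail y hyx).trans (by linarith)
        · push Not at hyx
          have h1 := htail x0 le_rfl
          have h2 := hlogs s (by linarith) hs2 y x0 hy hx0le
          have h3 : ∑ v ∈ FN K x0, ED e (γ k) (pt b n) s v -
              ∑ v ∈ FN K y, ED e (γ k) (pt b n) s v =
              ∑ v ∈ GG K y x0, ED e (γ k) (pt b n) s v := sum_FN hyx.le _
          have h4 : Z * (y : ℝ) ^ (-(250 * c)) ≤ η' / 4 := by
            have h5 : (y : ℝ) ^ (-(250 * c)) ≤ (y : ℝ) ^ (-(249 * c)) :=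
              Real.rpow_le_rpow_of_exponent_le hyr (by linarith)
            have h6 : (y : ℝ) ^ (-(249 * c)) = ((y : ℝ) ^ (249 * c))⁻¹ := Real.rpow_neg (by linarith) _
            have h7 : 4 * Z / η' ≤ (y : ℝ) ^ (249 * c) := hZη.trans (hypow y hy)
            have h8 : 0 < 4 * Z / η' := by positivity
            have h9 : ((y : ℝ) ^ (249 * c))⁻¹ ≤ (4 * Z / η')⁻¹ := inv_anti₀ h8 h7
            calc Z * (y : ℝ) ^ (-(250 * c)) ≤ Z * (4 * Z / η')⁻¹ := by
                  refine mul_le_mul_of_nonneg_left ?_ (by linarith)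
                  rw [h6] at h5
                  exact h5.trans h9
              _ = η' / 4 := by field_simp
          calc _ = ‖(∑' v, ED e (γ k) (pt b n) s v -
                ∑ v ∈ FN K x0, ED e (γ k) (pt b n) s v) +
                (∑ v ∈ FN K x0, ED e (γ k) (pt b n) s v -
                ∑ v ∈ FN K y, ED e (γ k) (pt b n) s v)‖ := by rw [sub_add_sub_cancel]
            _ ≤ _ := norm_add_le _ _
            _ ≤ η' / 4 + η' / 4 := add_le_add h1 (by rw [h3]; exact h2.trans h4)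
            _ = η' / 2 := by ring
      linarith
  -- the count
  obtain ⟨P, hP⟩ : ∃ P : Fin r → (Fin r → ℤ) → Prop, ∀ i n, P i n ↔
      ¬ ∀ k ∈ (univ : Finset (Fin m)), Good d (d / 2000) T fun p => gp e (γ k) b i p n :=
    ⟨_, fun _ _ => Iff.rfl⟩
  have hdir : ∀ i, ∀ n : Fin r → ℤ, ({l : ℤ | |l| ≤ X ∧ P i (Function.update n i l)}.ncard : ℝ) ≤
      (T : ℝ) ^ (1 - d / 2000) := by
    intro i n
    have hcount := hT0 T (hXT.trans (by omega)) (univ : Finset (Fin m))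
      (fun k p l => gp e (γ k) b i p (Function.update n i l))
      (fun k _ => sys_gp he (hγ k) b i.2 n) (by
        rw [card_univ, Fintype.card_fin]
        exact hm.trans hTc) (-(X : ℤ))
    refine le_trans ?_ hcount
    set S := {l : ℕ | l < T ∧ ¬ ∀ k ∈ (univ : Finset (Fin m)),
        Good d (d / 2000) T fun p => gp e (γ k) b i p (Function.update n i (-(X : ℤ) + l))} with hS
    have hSfin : S.Finite := Set.Finite.subset (Set.finite_Iio T) fun n hn => hn.1
    have h1 : {l : ℤ | |l| ≤ X ∧ P i (Function.update n i l)} ⊆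
        (fun l : ℕ => -(X : ℤ) + l) '' S := by
      rintro l ⟨hl1, hl2⟩
      have h2 := abs_le.1 hl1
      rw [hP] at hl2
      refine ⟨(l + X).toNat, ⟨?_, fun hcon => hl2 fun k hk => ?_⟩, ?_⟩
      · omega
      · have h3 := hcon k hk
        have h4 : -(X : ℤ) + ((l + X).toNat : ℤ) = l := by omega
        rw [h4] at h3
        exact h3
      · dsimp only
        omega
    have h2 := Set.ncard_le_ncard h1 (hSfin.image _)
    have h3 := Set.ncard_image_le (f := fun l : ℕ => -(X : ℤ) + l) hSfin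
    exact Nat.cast_le.2 (h2.trans h3)
  have hbox := box_count X P ((T : ℝ) ^ (1 - d / 2000)) (by positivity) hdir
  have hfinbox : {n : Fin r → ℤ | (∀ i, |n i| ≤ X) ∧ ∃ i, P i n}.Finite := by
    refine Set.Finite.subset (Fintype.piFinset fun _ : Fin r => Icc (-(X : ℤ)) X).finite_toSet ?_
    rintro n ⟨hn, _⟩
    rw [Finset.mem_coe, Fintype.mem_piFinset]
    exact fun i => mem_Icc.2 (abs_le.1 (hn i))
  have hsub : {n : Fin r → ℤ | (∀ i, |n i| ≤ X) ∧ ¬ ∀ k, A1 δ c X (ED e (γ k) (pt b n)) ∧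
      A2 η A c X (ED e (γ k) (pt b n))} ⊆ {n : Fin r → ℤ | (∀ i, |n i| ≤ X) ∧ ∃ i, P i n} := by
    rintro n ⟨hn1, hn2⟩
    refine ⟨hn1, ?_⟩
    by_contra hcon
    push Not at hcon
    refine hn2 (hgood n fun k i hi => ?_)
    have h1 := hcon ⟨i, hi⟩
    rw [hP, not_not] at h1
    exact h1 k (mem_univ k)
  refine (Nat.cast_le.2 (Set.ncard_le_ncard hsub hfinbox)).trans (hbox.trans ?_)
  rcases Nat.eq_zero_or_pos r with hr0 | hr0
  · subst hr0
    rw [Nat.cast_zero, zero_mul]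
    positivity
  have hrr : (1 : ℝ) ≤ r := by exact_mod_cast hr0
  have hT0' : (0 : ℝ) < T := by linarith
  have hdr : (r : ℝ) - d / 2000 ≤ r := by linarith
  have h1 : (T : ℝ) ^ (1 - d / 2000) * (2 * X + 1 : ℝ) ^ (r - 1) = (T : ℝ) ^ ((r : ℝ) - d / 2000) := by
    rw [← hTr, ← Real.rpow_natCast, ← Real.rpow_add hT0', Nat.cast_sub hr0, Nat.cast_one]
    congr 1
    ring
  rw [h1]
  calc r * (T : ℝ) ^ ((r : ℝ) - d / 2000) ≤ r * (3 * X : ℝ) ^ ((r : ℝ) - d / 2000) := by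
        refine mul_le_mul_of_nonneg_left ?_ (by linarith)
        exact Real.rpow_le_rpow hT0'.le hT3 (by rw [hdc]; linarith)
    _ = r * (3 ^ ((r : ℝ) - d / 2000) * (X : ℝ) ^ ((r : ℝ) - d / 2000)) := by
        rw [Real.mul_rpow (by norm_num) hX0.le]
    _ ≤ r * (3 ^ r * (X : ℝ) ^ ((r : ℝ) - d / 2000)) := by
        refine mul_le_mul_of_nonneg_left (mul_le_mul_of_nonneg_right ?_ (by positivity))
          (by linarith)
        calc (3 : ℝ) ^ ((r : ℝ) - d / 2000) ≤ 3 ^ (r : ℝ) :=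
              Real.rpow_le_rpow_of_exponent_le (by norm_num) hdr
          _ = 3 ^ r := Real.rpow_natCast _ _
    _ = (r * 3 ^ r) * (X : ℝ) ^ ((r : ℝ) - d / 2000) := by ring
    _ ≤ (X : ℝ) ^ c * (X : ℝ) ^ ((r : ℝ) - d / 2000) :=
        mul_le_mul_of_nonneg_right hX3 (by positivity)
    _ = (X : ℝ) ^ ((r : ℝ) - c) := by
        rw [← Real.rpow_add hX0, hdc]
        congr 1
        ring

end nf

end Pool.Agent.Y770.FA
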