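import Pool.Agent.Y770.FA.Final

/-!
# Almost all members of a family over an affine space: the products
-/

set_option autoImplicit false

open Finset NumberField IsDedekindDomain Filter
open Pool.Agent.H921R2.TatePole (nm two_le_nm nm_summable)
open Pool.Agent.Y770.EP (ev_log ev_rpow)
open Pool.Agent.Y770.FM (A1 A2 R1 R2 R1_of R2_of PP PL PP_exp PL_exp el_summable FN GG mem_FN mem_GG
  Z1 Z2 Z1_nonneg Z2_nonneg sum_FN nm_pos' one_le_nm fc el fc_eq el_sub el_le norm_q norm_sum_γ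
  half_of_four half_of_one sum_large)

namespace Pool.Agent.Y770.FA

section nf
variable {K : Type} [Field K] [NumberField K] {r N M : ℕ}

/-- the partial product, divided by the product of the mean values -/
noncomputable def QQ (e : (Fin r → 𝓞 K) → HeightOneSpectrum (𝓞 K) → Fin N → ℂ)
    (γ : HeightOneSpectrum (𝓞 K) → Fin M → ℂ) (t : Fin r → 𝓞 K) (s : ℂ) (x : ℕ) : ℂ :=
  PP (e t) γ s x * Complex.exp (-∑ v ∈ FN K x, mm e v * (∑ l, γ v l) * (nm v : ℂ) ^ (-s))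

/-- the full product, divided by the product of the mean values -/
noncomputable def QL (e : (Fin r → 𝓞 K) → HeightOneSpectrum (𝓞 K) → Fin N → ℂ)
    (γ : HeightOneSpectrum (𝓞 K) → Fin M → ℂ) (t : Fin r → 𝓞 K) (s : ℂ) : ℂ :=
  PL (e t) γ s * Complex.exp (-∑' v, mm e v * (∑ l, γ v l) * (nm v : ℂ) ^ (-s))

lemma QQ_exp {e : (Fin r → 𝓞 K) → HeightOneSpectrum (𝓞 K) → Fin N → ℂ}
    {γ : HeightOneSpectrum (𝓞 K) → Fin M → ℂ} {t : Fin r → 𝓞 K} {s : ℂ} (he : Loc e)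
    (hγ : ∀ v l, ‖γ v l‖ ≤ 1) (hs : 0 < s.re) (x : ℕ) :
    QQ e γ t s x = Complex.exp (∑ v ∈ FN K x, ED e γ t s v) := by
  unfold QQ ED
  rw [PP_exp (he.le t) hγ hs, ← Complex.exp_add, Finset.sum_sub_distrib, sub_eq_add_neg]

lemma QL_eq {e : (Fin r → 𝓞 K) → HeightOneSpectrum (𝓞 K) → Fin N → ℂ}
    {γ : HeightOneSpectrum (𝓞 K) → Fin M → ℂ} {t : Fin r → 𝓞 K} {s : ℂ} (he : Loc e)
    (hγ : ∀ v l, ‖γ v l‖ ≤ 1) (hs : 1 < s.re) :
    QL e γ t s = Complex.exp (∑' v, ED e γ t s v) := by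
  have h2 := mean_summable he hγ hs
  have h3 := el_summable (he.le t) hγ hs
  have h4 : ∑' v, ED e γ t s v = ∑' v, el (e t v) (γ v) v s -
      ∑' v, mm e v * (∑ l, γ v l) * (nm v : ℂ) ^ (-s) := h3.tsum_sub h2
  rw [h4, Complex.exp_sub]
  unfold QL
  rw [PL_exp (he.le t) hγ hs, Complex.exp_neg, div_eq_mul_inv]

variable {δ c η A : ℝ} {X : ℕ}

/-- the difference of the logarithms of the product of the mean values and of the fixed part -/
noncomputable def DF (e : (Fin r → 𝓞 K) → HeightOneSpectrum (𝓞 K) → Fin N → ℂ)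
    (a : HeightOneSpectrum (𝓞 K) → Fin N → ℂ) (γ : HeightOneSpectrum (𝓞 K) → Fin M → ℂ) (s : ℂ)
    (v : HeightOneSpectrum (𝓞 K)) : ℂ :=
  mm e v * (∑ l, γ v l) * (nm v : ℂ) ^ (-s) - el (a v) (γ v) v s

variable {e : (Fin r → 𝓞 K) → HeightOneSpectrum (𝓞 K) → Fin N → ℂ} {a : HeightOneSpectrum (𝓞 K) → Fin N → ℂ}
  {γ : HeightOneSpectrum (𝓞 K) → Fin M → ℂ} {B : ℝ} {s : ℂ}

lemma DF_le (ha : ∀ v j, ‖a v j‖ ≤ 1) (hγ : ∀ v l, ‖γ v l‖ ≤ 1) (hB : 0 ≤ B)
    (hm : ∀ v, ‖mm e v - ∑ j, a v j‖ ≤ B * (nm v : ℝ) ^ (-(1 / 2) : ℝ)) {v : HeightOneSpectrum (𝓞 K)}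
    {θ : ℝ} (hθ : 0 ≤ θ) (hs : 1 / 2 + θ ≤ s.re) (hq : (nm v : ℝ) ^ (-s.re) ≤ 1 / 2) :
    ‖DF e a γ s v‖ ≤ (B + N) * M * (nm v : ℝ) ^ (-(1 + θ)) := by
  have h1 : DF e a γ s v = (mm e v - ∑ j, a v j) * (∑ l, γ v l) * (nm v : ℂ) ^ (-s) -
      (el (a v) (γ v) v s - (∑ j, a v j) * (∑ l, γ v l) * (nm v : ℂ) ^ (-s)) := by
    unfold DF
    ring
  have h2 := el_sub (v := v) (s := s) (ha v) (hγ v) hq
  have h3 : ‖(mm e v - ∑ j, a v j) * (∑ l, γ v l) * (nm v : ℂ) ^ (-s)‖ ≤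
      B * M * (nm v : ℝ) ^ (-(1 + θ)) := by
    rw [norm_mul, norm_mul, norm_q]
    have h4 : (nm v : ℝ) ^ (-(1 / 2) : ℝ) * (nm v : ℝ) ^ (-s.re) ≤ (nm v : ℝ) ^ (-(1 + θ)) := by
      rw [← Real.rpow_add (nm_pos' v)]
      exact Real.rpow_le_rpow_of_exponent_le (one_le_nm v) (by linarith)
    calc ‖mm e v - ∑ j, a v j‖ * ‖∑ l, γ v l‖ * (nm v : ℝ) ^ (-s.re)
        ≤ (B * (nm v : ℝ) ^ (-(1 / 2) : ℝ)) * M * (nm v : ℝ) ^ (-s.re) :=
          mul_le_mul_of_nonneg_right (mul_le_mul (hm v) (norm_sum_γ hγ v) (norm_nonneg _)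
            (by positivity)) (by positivity)
      _ = B * M * ((nm v : ℝ) ^ (-(1 / 2) : ℝ) * (nm v : ℝ) ^ (-s.re)) := by ring
      _ ≤ _ := mul_le_mul_of_nonneg_left h4 (by positivity)
  have h5 : N * M * (nm v : ℝ) ^ (-(2 * s.re)) ≤ N * M * (nm v : ℝ) ^ (-(1 + θ)) :=
    mul_le_mul_of_nonneg_left (Real.rpow_le_rpow_of_exponent_le (one_le_nm v) (by linarith))
      (by positivity)
  rw [h1]
  refine (norm_sub_le _ _).trans ((add_le_add h3 (h2.trans h5)).trans (le_of_eq ?_))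
  ring

/-- the finite sums in the strip -/
lemma DF_strip (ha : ∀ v j, ‖a v j‖ ≤ 1) (hγ : ∀ v l, ‖γ v l‖ ≤ 1) (hB : 0 ≤ B)
    (hm : ∀ v, ‖mm e v - ∑ j, a v j‖ ≤ B * (nm v : ℝ) ^ (-(1 / 2) : ℝ)) (hδ : 0 < δ)
    (hs : 1 / 2 + δ ≤ s.re) {y x : ℕ} (hy : 4 ≤ y) :
    ‖∑ v ∈ GG K y x, DF e a γ s v‖ ≤ (B + N) * M * Z1 K δ * (y : ℝ) ^ (-(δ / 2)) := by
  refine (norm_sum_le _ _).trans ?_
  refine (Finset.sum_le_sum (g := fun v : HeightOneSpectrum (𝓞 K) =>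
    (B + N) * M * (nm v : ℝ) ^ (-(1 + δ))) fun v hv => ?_).trans ?_
  · rw [mem_GG] at hv
    exact DF_le ha hγ hB hm hδ.le hs (half_of_four (by omega) (by linarith))
  · refine sum_large (x := (B + N) * M) (θ := δ / 2) (by positivity) (fun v => by positivity)
      (nm_summable (x := 1 + δ / 2) (by linarith)) (fun v => ?_) (by positivity) (by omega) _
      fun v hv => ?_
    · refine mul_le_mul_of_nonneg_left ?_ (by positivity)
      rw [← Real.rpow_add (nm_pos' v)]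
      exact Real.rpow_le_rpow_of_exponent_le (one_le_nm v) (by linarith)
    · rw [mem_GG] at hv
      exact hv.1

lemma DF_summable (ha : ∀ v j, ‖a v j‖ ≤ 1) (hγ : ∀ v l, ‖γ v l‖ ≤ 1) (hB : 0 ≤ B)
    (hm : ∀ v, ‖mm e v - ∑ j, a v j‖ ≤ B * (nm v : ℝ) ^ (-(1 / 2) : ℝ)) (hs : 1 ≤ s.re) :
    Summable (DF e a γ s) :=
  Summable.of_norm_bounded ((nm_summable (x := 1 + 1 / 2) (by norm_num)).mul_left ((B + N) * M))
    fun v => DF_le ha hγ hB hm (by norm_num) (by linarith) (half_of_one hs)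

/-- the tails at the edge -/
lemma DF_edge (ha : ∀ v j, ‖a v j‖ ≤ 1) (hγ : ∀ v l, ‖γ v l‖ ≤ 1) (hB : 0 ≤ B)
    (hm : ∀ v, ‖mm e v - ∑ j, a v j‖ ≤ B * (nm v : ℝ) ^ (-(1 / 2) : ℝ)) (hs : 1 ≤ s.re) {y : ℕ}
    (hy : 1 ≤ y) :
    ‖∑' v, DF e a γ s v - ∑ v ∈ FN K y, DF e a γ s v‖ ≤
      (B + N) * M * Z1 K (1 / 2) * (y : ℝ) ^ (-(1 / 4) : ℝ) := by
  classical
  have h1 := DF_summable (s := s) ha hγ hB hm hs
  have hy0 : (0 : ℝ) < y := by exact_mod_cast hy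
  have h2 : ∑' v, DF e a γ s v - ∑ v ∈ FN K y, DF e a γ s v =
      ∑' v, (if v ∈ FN K y then 0 else DF e a γ s v) := by
    have h3 : ∑ v ∈ FN K y, DF e a γ s v = ∑' v, (if v ∈ FN K y then DF e a γ s v else 0) := by
      rw [tsum_eq_sum (s := FN K y) (fun v hv => if_neg hv)]
      exact Finset.sum_congr rfl fun v hv => (if_pos hv).symm
    have h4 : Summable fun v => (if v ∈ FN K y then DF e a γ s v else 0) :=
      summable_of_ne_finset_zero (s := FN K y) fun v hv => if_neg hv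
    rw [h3, ← h1.tsum_sub h4]
    refine tsum_congr fun v => ?_
    split_ifs
    · rw [sub_self]
    · rw [sub_zero]
  rw [h2]
  have h5 : ∀ v : HeightOneSpectrum (𝓞 K), ‖(if v ∈ FN K y then 0 else DF e a γ s v : ℂ)‖ ≤
      (B + N) * M * (y : ℝ) ^ (-(1 / 4) : ℝ) * (nm v : ℝ) ^ (-(1 + (1 / 2) / 2) : ℝ) := by
    intro v
    split_ifs with hv
    · rw [norm_zero]
      positivity
    · rw [mem_FN, not_le] at hv
      refine (DF_le (θ := 1 / 2) ha hγ hB hm (by norm_num) (by linarith) (half_of_one hs)).trans ?_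
      have h6 : (nm v : ℝ) ^ (-(1 / 4) : ℝ) ≤ (y : ℝ) ^ (-(1 / 4) : ℝ) :=
        Real.rpow_le_rpow_of_nonpos hy0 (by exact_mod_cast hv.le) (by norm_num)
      have h7 : (nm v : ℝ) ^ (-(1 + 1 / 2) : ℝ) = (nm v : ℝ) ^ (-(1 / 4) : ℝ) *
          (nm v : ℝ) ^ (-(1 + (1 / 2) / 2) : ℝ) := by
        rw [← Real.rpow_add (nm_pos' v)]
        norm_num
      rw [h7, mul_assoc ((B + N) * M)]
      exact mul_le_mul_of_nonneg_left (mul_le_mul_of_nonneg_right h6 (by positivity))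
        (by positivity)
  have h8 := tsum_of_norm_bounded ((nm_summable (K := K) (x := 1 + (1 / 2) / 2)
    (by norm_num)).mul_left ((B + N) * M * (y : ℝ) ^ (-(1 / 4) : ℝ))).hasSum h5
  refine h8.trans (le_of_eq ?_)
  rw [tsum_mul_left]
  unfold Z1
  ring

/-- **The theorem.** -/
theorem final (K : Type) [Field K] [NumberField K] (r N M : ℕ) (δ : ℝ) (hδ : 0 < δ) :
    ∃ c : ℝ, c = min δ (1 / 2) / 4000 ∧ 0 < c ∧ ∀ η B : ℝ, 0 < η → 0 ≤ B → ∃ A : ℝ, ∃ X₀ : ℕ,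
      ∀ X : ℕ, X₀ ≤ X →
      ∀ e : (Fin r → 𝓞 K) → HeightOneSpectrum (𝓞 K) → Fin N → ℂ, Loc e → ∀ b : Fin r → 𝓞 K, ∀ m : ℕ,
      (m : ℝ) ≤ (X : ℝ) ^ c → ∀ γ : Fin m → HeightOneSpectrum (𝓞 K) → Fin M → ℂ,
        (∀ k v l, ‖γ k v l‖ ≤ 1) →
        ∃ E : Finset (Fin r → ℤ), (E.card : ℝ) ≤ (X : ℝ) ^ (r - c) ∧
        ∀ n : Fin r → ℤ, (∀ i, |n i| ≤ X) → n ∉ E → ∀ k,
          (R1 δ c X (QQ e (γ k) (pt b n)) ∧
            R2 η A c X (QL e (γ k) (pt b n)) (QQ e (γ k) (pt b n))) ∧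
          (∀ a : HeightOneSpectrum (𝓞 K) → Fin N → ℂ, (∀ v j, ‖a v j‖ ≤ 1) →
            (∀ v, ‖mm e v - ∑ j, a v j‖ ≤ B * (nm v : ℝ) ^ (-(1 / 2) : ℝ)) →
            R1 δ c X (fun s x => PP (e (pt b n)) (γ k) s x / PP a (γ k) s x) ∧
            R2 η A c X (fun s => PL (e (pt b n)) (γ k) s / PL a (γ k) s)
              (fun s x => PP (e (pt b n)) (γ k) s x / PP a (γ k) s x)) ∧
          ∀ n' : Fin r → ℤ, (∀ i, |n' i| ≤ X) → n' ∉ E →
            R1 δ c X (fun s x => PP (e (pt b n)) (γ k) s x / PP (e (pt b n')) (γ k) s x) ∧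
            R2 η A c X (fun s => PL (e (pt b n)) (γ k) s / PL (e (pt b n')) (γ k) s)
              (fun s x => PP (e (pt b n)) (γ k) s x / PP (e (pt b n')) (γ k) s x) := by
  classical
  obtain ⟨c, hcdef, hc0, hcδ, hc1, hmain⟩ := final_log K r N M δ hδ
  refine ⟨c, hcdef, hc0, fun η B hη hB => ?_⟩
  obtain ⟨η', hη'⟩ : ∃ η' : ℝ, η' = min η 1 := ⟨_, rfl⟩
  have hη0 : 0 < η' := by rw [hη']; positivity
  have hη1 : η' ≤ 1 := by rw [hη']; exact min_le_right _ _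
  have hηη : η' ≤ η := by rw [hη']; exact min_le_left _ _
  obtain ⟨A, hA0, X₁, hX₁⟩ := hmain (η' / 4) (by positivity)
  obtain ⟨Z, hZ⟩ : ∃ Z : ℝ, Z = (B + N) * M * Z1 K δ := ⟨_, rfl⟩
  obtain ⟨Z', hZ'⟩ : ∃ Z' : ℝ, Z' = (B + N) * M * Z1 K (1 / 2) := ⟨_, rfl⟩
  have ev : ∀ᶠ X : ℕ in atTop, 2 ≤ Real.log X ∧ 4 * Z ≤ Real.log X ∧
      4 * Z' / η' ≤ Real.log X ∧ 4 ≤ Real.log X := by
    have e1 : ∀ᶠ X : ℕ in atTop, 2 ≤ (Real.log X) ^ (1 : ℝ) := ev_log one_pos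
    have e2 : ∀ᶠ X : ℕ in atTop, 4 * Z ≤ (Real.log X) ^ (1 : ℝ) := ev_log one_pos
    have e3 : ∀ᶠ X : ℕ in atTop, 4 * Z' / η' ≤ (Real.log X) ^ (1 : ℝ) := ev_log one_pos
    have e4 : ∀ᶠ X : ℕ in atTop, 4 ≤ (Real.log X) ^ (1 : ℝ) := ev_log one_pos
    filter_upwards [e1, e2, e3, e4] with X a1 a2 a3 a4
    rw [Real.rpow_one] at a1 a2 a3 a4
    exact ⟨a1, a2, a3, a4⟩
  obtain ⟨X2, hX2⟩ := eventually_atTop.1 ev
  refine ⟨A, max X₁ X2, fun X hX e he b m hm γ hγ => ?_⟩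
  obtain ⟨hL2, hZL, hZL', hL4⟩ := hX2 X ((le_max_right _ _).trans hX)
  have hL1 : 1 ≤ Real.log X := by linarith
  have hL0 : 0 < Real.log X := by linarith
  have hfinset : {n : Fin r → ℤ | (∀ i, |n i| ≤ X) ∧ ¬ ∀ k, A1 δ c X (ED e (γ k) (pt b n)) ∧
      A2 (η' / 4) A c X (ED e (γ k) (pt b n))}.Finite := by
    refine Set.Finite.subset (Fintype.piFinset fun _ : Fin r => Icc (-(X : ℤ)) X).finite_toSet ?_
    rintro n ⟨hn, _⟩
    rw [Finset.mem_coe, Fintype.mem_piFinset]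
    exact fun i => mem_Icc.2 (abs_le.1 (hn i))
  refine ⟨hfinset.toFinset, ?_, ?_⟩
  · have h1 := hX₁ X ((le_max_left _ _).trans hX) e he b m hm γ hγ
    rw [Set.ncard_eq_toFinset_card _ hfinset] at h1
    exact h1
  have hylow : ∀ y : ℕ, (Real.log X) ^ (1 / c) ≤ y → (1 : ℝ) ≤ y ∧ Real.log X ≤ (y : ℝ) ^ c ∧
      4 ≤ y := by
    intro y hy
    have h1 : (1 : ℝ) ≤ y := le_trans (Real.one_le_rpow hL1 (by positivity)) hy
    refine ⟨h1, ?_, ?_⟩
    · have h2 := Real.rpow_le_rpow (by positivity) hy hc0.le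
      rw [← Real.rpow_mul hL0.le, one_div_mul_cancel hc0.ne', Real.rpow_one] at h2
      exact h2
    · have h2 : (4 : ℝ) ≤ (Real.log X) ^ (1 / c) := by
        calc (4 : ℝ) ≤ Real.log X := hL4
          _ = (Real.log X) ^ (1 : ℝ) := (Real.rpow_one _).symm
          _ ≤ (Real.log X) ^ (1 / c) := Real.rpow_le_rpow_of_exponent_le hL1
              (by rw [le_div_iff₀ hc0]; linarith)
      exact_mod_cast h2.trans hy
  have hgood : ∀ n : Fin r → ℤ, (∀ i, |n i| ≤ X) → n ∉ hfinset.toFinset → ∀ k,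
      A1 δ c X (ED e (γ k) (pt b n)) ∧ A2 (η' / 4) A c X (ED e (γ k) (pt b n)) := by
    intro n hn hnE
    rw [Set.Finite.mem_toFinset] at hnE
    by_contra hcon
    exact hnE ⟨hn, hcon⟩
  have h1s : ∀ (t : Fin r → 𝓞 K) k (s : ℂ), 1 < s.re → Summable (ED e (γ k) t s) :=
    fun t k s hs => ED_summable he (hγ k) hs
  intro n hn hnE k
  obtain ⟨ha1, ha2⟩ := hgood n hn hnE k
  refine ⟨⟨?_, ?_⟩, fun a ha hmn => ⟨?_, ?_⟩, fun n' hn' hnE' => ?_⟩
  · refine R1_of (D := ED e (γ k) (pt b n)) (fun s x hs => QQ_exp he (hγ k) hs x) hδ hc0 hL1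
      fun s hs hs2 y x hy hx => ?_
    have h1 := ha1 s hs hs2 y x hy hx
    have h2 : (0 : ℝ) ≤ (y : ℝ) ^ (-c) := by positivity
    linarith
  · refine R2_of (D := ED e (γ k) (pt b n)) (fun s x hs => QQ_exp he (hγ k) hs x)
      (fun s hs => QL_eq he (hγ k) hs) hA0 hL1 hη1 hηη fun s hs hs2 y hy => ?_
    have h1 := ha2 s hs hs2 y hy
    linarith
  · refine R1_of (D := fun s v => ED e (γ k) (pt b n) s v + DF e a (γ k) s v)
      (fun s x hs => ?_) hδ hc0 hL1 fun s hs hs2 y x hy hx => ?_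
    · rw [PP_exp (he.le _) (hγ k) hs, PP_exp ha (hγ k) hs, ← Complex.exp_sub,
        ← Finset.sum_sub_distrib]
      congr 1
      refine Finset.sum_congr rfl fun v _ => ?_
      unfold ED DF
      ring
    · obtain ⟨hy1, hyc, hy4⟩ := hylow y hy
      have hy0 : (0 : ℝ) < y := by linarith
      have h1 := ha1 s hs hs2 y x hy hx
      have h2 := DF_strip (s := s) (x := x) ha (hγ k) hB hmn hδ hs hy4
      rw [← hZ] at h2
      have h3 : Z * (y : ℝ) ^ (-(δ / 2)) ≤ (y : ℝ) ^ (-c) / 4 := by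
        have h4 : (y : ℝ) ^ (-(δ / 2)) ≤ (y : ℝ) ^ (-(2 * c)) :=
          Real.rpow_le_rpow_of_exponent_le hy1 (by linarith)
        have h5 : (y : ℝ) ^ (-(2 * c)) = (y : ℝ) ^ (-c) * (y : ℝ) ^ (-c) := by
          rw [← Real.rpow_add hy0]; congr 1; ring
        have h6 : (y : ℝ) ^ c * (y : ℝ) ^ (-c) = 1 := by
          rw [← Real.rpow_add hy0, add_neg_cancel, Real.rpow_zero]
        have h7 : 4 * Z ≤ (y : ℝ) ^ c := hZL.trans hyc
        have h8 : (0 : ℝ) ≤ (y : ℝ) ^ (-c) := by positivity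
        have hZ0 : 0 ≤ Z := by
          rw [hZ]
          have := Z1_nonneg (K := K) δ
          positivity
        calc Z * (y : ℝ) ^ (-(δ / 2)) ≤ Z * ((y : ℝ) ^ (-c) * (y : ℝ) ^ (-c)) := by
              rw [← h5]; exact mul_le_mul_of_nonneg_left h4 hZ0
          _ = (4 * Z) * (y : ℝ) ^ (-c) * (y : ℝ) ^ (-c) / 4 := by ring
          _ ≤ (y : ℝ) ^ c * (y : ℝ) ^ (-c) * (y : ℝ) ^ (-c) / 4 := by gcongr
          _ = (y : ℝ) ^ (-c) / 4 := by rw [h6, one_mul]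
      rw [Finset.sum_add_distrib]
      refine (norm_add_le _ _).trans ?_
      linarith
  · refine R2_of (D := fun s v => ED e (γ k) (pt b n) s v + DF e a (γ k) s v)
      (fun s x hs => ?_) (fun s hs => ?_) hA0 hL1 hη1 hηη fun s hs hs2 y hy => ?_
    · rw [PP_exp (he.le _) (hγ k) hs, PP_exp ha (hγ k) hs, ← Complex.exp_sub,
        ← Finset.sum_sub_distrib]
      congr 1
      refine Finset.sum_congr rfl fun v _ => ?_
      unfold ED DF
      ring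
    · rw [PL_exp (he.le _) (hγ k) hs, PL_exp ha (hγ k) hs, ← Complex.exp_sub,
        ← (el_summable (he.le _) (hγ k) hs).tsum_sub (el_summable ha (hγ k) hs)]
      congr 1
      refine tsum_congr fun v => ?_
      unfold ED DF
      ring
    · obtain ⟨hy1, hyc, hy4⟩ := hylow y hy
      have hy0 : (0 : ℝ) < y := by linarith
      have h0 : 0 < A / Real.log X := by positivity
      have h1 := ha2 s hs hs2 y hy
      have h2 := DF_edge (s := s) ha (hγ k) hB hmn (by linarith) (y := y) (by omega)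
      rw [← hZ'] at h2
      have h3 : Z' * (y : ℝ) ^ (-(1 / 4) : ℝ) ≤ η' / 4 := by
        have h4 : (y : ℝ) ^ (-(1 / 4) : ℝ) ≤ (Real.log X)⁻¹ := by
          have h5 : Real.log X ≤ (y : ℝ) ^ (1 / 4 : ℝ) :=
            hyc.trans (Real.rpow_le_rpow_of_exponent_le hy1 (by linarith))
          rw [Real.rpow_neg hy0.le]
          exact inv_anti₀ hL0 h5
        have hZ0 : 0 ≤ Z' := by
          rw [hZ']
          have := Z1_nonneg (K := K) (1 / 2)
          positivity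
        calc Z' * (y : ℝ) ^ (-(1 / 4) : ℝ) ≤ Z' * (Real.log X)⁻¹ :=
              mul_le_mul_of_nonneg_left h4 hZ0
          _ ≤ η' / 4 := by
              rw [← div_eq_mul_inv, div_le_iff₀ hL0]
              rw [div_le_iff₀ hη0] at hZL'
              linarith
      have h6 : ∑' v, (ED e (γ k) (pt b n) s v + DF e a (γ k) s v) =
          ∑' v, ED e (γ k) (pt b n) s v + ∑' v, DF e a (γ k) s v :=
        (h1s _ k s (by linarith)).tsum_add (DF_summable ha (hγ k) hB hmn (by linarith))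
      rw [h6, Finset.sum_add_distrib, add_sub_add_comm]
      refine (norm_add_le _ _).trans ?_
      linarith
  · obtain ⟨hb1, hb2⟩ := hgood n' hn' hnE' k
    have hPexp : ∀ s : ℂ, ∀ x : ℕ, 0 < s.re →
        PP (e (pt b n)) (γ k) s x / PP (e (pt b n')) (γ k) s x =
          Complex.exp (∑ v ∈ FN K x, (ED e (γ k) (pt b n) s v - ED e (γ k) (pt b n') s v)) := by
      intro s x hs
      rw [PP_exp (he.le _) (hγ k) hs, PP_exp (he.le _) (hγ k) hs, ← Complex.exp_sub,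
        ← Finset.sum_sub_distrib]
      congr 1
      refine Finset.sum_congr rfl fun v _ => ?_
      unfold ED
      ring
    constructor
    · refine R1_of (D := fun s v => ED e (γ k) (pt b n) s v - ED e (γ k) (pt b n') s v)
        (fun s x hs => hPexp s x hs) hδ hc0 hL1 fun s hs hs2 y x hy hx => ?_
      have h1 := ha1 s hs hs2 y x hy hx
      have h2 := hb1 s hs hs2 y x hy hx
      rw [Finset.sum_sub_distrib]
      refine (norm_sub_le _ _).trans ?_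
      linarith
    · refine R2_of (D := fun s v => ED e (γ k) (pt b n) s v - ED e (γ k) (pt b n') s v)
        (fun s x hs => hPexp s x hs) (fun s hs => ?_) hA0 hL1 hη1 hηη fun s hs hs2 y hy => ?_
      · rw [PL_exp (he.le _) (hγ k) hs, PL_exp (he.le _) (hγ k) hs, ← Complex.exp_sub,
          ← (el_summable (he.le _) (hγ k) hs).tsum_sub (el_summable (he.le _) (hγ k) hs)]
        congr 1
        refine tsum_congr fun v => ?_
        unfold ED
        ring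
      · have h0 : 0 < A / Real.log X := by positivity
        have h1 := ha2 s hs hs2 y hy
        have h2 := hb2 s hs hs2 y hy
        have h6 : ∑' v, (ED e (γ k) (pt b n) s v - ED e (γ k) (pt b n') s v) =
            ∑' v, ED e (γ k) (pt b n) s v - ∑' v, ED e (γ k) (pt b n') s v :=
          (h1s _ k s (by linarith)).tsum_sub (h1s _ k s (by linarith))
        rw [h6, Finset.sum_sub_distrib, sub_sub_sub_comm]
        refine (norm_sub_le _ _).trans ?_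
        linarith

end nf

end Pool.Agent.Y770.FA
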