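import Pool.Agent.Y770.FA.Final2
import Pool.Agent.TH958.BV.Defs

/-!
# Families of projective varieties over an affine space
-/

set_option autoImplicit false

open Finset NumberField IsDedekindDomain Filter
open Pool.Agent.H921R2.TatePole (nm two_le_nm nm_summable)
open Pool.Agent.TH958.BV (IsFrobenius cone)
open Pool.Agent.Y770.FM (nm_pos' one_le_nm)

namespace Pool.Agent.Y770.FA

section geo
variable {K : Type} [Field K] [NumberField K] {q r N M : ℕ}

/-- The fibre over `t` of a family over the affine space. -/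
def fibre (X : Set (MvPolynomial (Fin q) (MvPolynomial (Fin r) (𝓞 K)))) (t : Fin r → 𝓞 K) :
    Set (MvPolynomial (Fin q) (𝓞 K)) :=
  MvPolynomial.map (MvPolynomial.eval t) '' X

open Classical in
/-- The eigenvalues of Frobenius on `H^i` of the fibre, `0` if there are none -/
noncomputable def frob (X : Set (MvPolynomial (Fin q) (MvPolynomial (Fin r) (𝓞 K)))) (d i N : ℕ)
    (t : Fin r → 𝓞 K) (v : HeightOneSpectrum (𝓞 K)) : Fin N → ℂ :=
  if h : ∃ α : Fin N → ℂ, IsFrobenius (fibre X t) d i v α then h.choose else 0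

variable {X : Set (MvPolynomial (Fin q) (MvPolynomial (Fin r) (𝓞 K)))} {d i : ℕ}

omit [NumberField K] in
lemma cone_fibre (t : Fin r → 𝓞 K) {κ : Type} [Field κ] (φ : 𝓞 K →+* κ) :
    cone (fibre X t) φ = Nat.card {u : Fin q → κ // u ≠ 0 ∧ ∀ f ∈ X,
      MvPolynomial.eval₂ (φ.comp (MvPolynomial.eval t)) u f = 0} := by
  unfold cone fibre
  congr 1
  simp only [Set.forall_mem_image, MvPolynomial.eval₂_map]

omit [NumberField K] in
lemma comp_eval_eq {κ : Type} [Field κ] (φ : 𝓞 K →+* κ) {t t' : Fin r → 𝓞 K}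
    (h : ∀ i, φ (t i) = φ (t' i)) :
    φ.comp (MvPolynomial.eval t) = φ.comp (MvPolynomial.eval t') := by
  refine MvPolynomial.ringHom_ext (fun a => ?_) (fun i => ?_)
  · simp
  · simpa using h i

lemma frob_congr_pred {t t' : Fin r → 𝓞 K} {v : HeightOneSpectrum (𝓞 K)}
    (h : ∀ i, t i - t' i ∈ v.asIdeal) :
    (fun α : Fin N → ℂ => IsFrobenius (fibre X t) d i v α) =
      fun α : Fin N → ℂ => IsFrobenius (fibre X t') d i v α := by
  have key : ∀ (κ : Type) [Field κ] (φ : 𝓞 K →+* κ), RingHom.ker φ = v.asIdeal →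
      cone (fibre X t) φ = cone (fibre X t') φ := by
    intro κ _ φ hφ
    rw [cone_fibre, cone_fibre, comp_eval_eq φ (t := t) (t' := t')]
    intro j
    rw [← sub_eq_zero, ← map_sub, ← RingHom.mem_ker, hφ]
    exact h j
  funext α
  unfold IsFrobenius
  apply propext
  constructor
  · rintro ⟨β, h1, h2, h3⟩
    refine ⟨β, h1, h2, fun κ _ _ φ e hφ hc => ?_⟩
    rw [← key κ φ hφ]
    exact h3 κ φ e hφ hc
  · rintro ⟨β, h1, h2, h3⟩
    refine ⟨β, h1, h2, fun κ _ _ φ e hφ hc => ?_⟩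
    rw [key κ φ hφ]
    exact h3 κ φ e hφ hc

open Classical in
/-- a choice depending on a predicate -/
noncomputable def pick (P : (Fin N → ℂ) → Prop) : Fin N → ℂ := if h : ∃ α, P α then h.choose else 0

lemma frob_eq_pick (X : Set (MvPolynomial (Fin q) (MvPolynomial (Fin r) (𝓞 K)))) (d i N : ℕ)
    (t : Fin r → 𝓞 K) (v : HeightOneSpectrum (𝓞 K)) :
    frob X d i N t v = pick (fun α => IsFrobenius (fibre X t) d i v α) := rfl

lemma frob_congr {t t' : Fin r → 𝓞 K} {v : HeightOneSpectrum (𝓞 K)}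
    (h : ∀ i, t i - t' i ∈ v.asIdeal) : frob X d i N t v = frob X d i N t' v := by
  rw [frob_eq_pick, frob_eq_pick, frob_congr_pred h]

lemma frob_norm (X : Set (MvPolynomial (Fin q) (MvPolynomial (Fin r) (𝓞 K)))) (d i N : ℕ)
    (t : Fin r → 𝓞 K) (v : HeightOneSpectrum (𝓞 K)) (j : Fin N) :
    ‖frob X d i N t v j‖ ≤ (nm v : ℝ) ^ ((i : ℝ) / 2) := by
  unfold frob
  split_ifs with h
  · obtain ⟨β, h1, h2, _⟩ := h.choose_spec
    refine (h2 i _ ?_).le
    rw [h1, Multiset.mem_map]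
    exact ⟨j, by simp, rfl⟩
  · simp only [Pi.zero_apply, norm_zero]
    positivity

lemma norm_pow_i (v : HeightOneSpectrum (𝓞 K)) (i : ℕ) :
    ‖(nm v : ℂ) ^ (-((i : ℂ) / 2))‖ = (nm v : ℝ) ^ (-((i : ℝ) / 2)) := by
  rw [Complex.norm_natCast_cpow_of_pos (by have := two_le_nm v; omega)]
  congr 1
  simp

lemma norm_mul_pow_le {z : ℂ} {v : HeightOneSpectrum (𝓞 K)} {i : ℕ}
    (h : ‖z‖ ≤ (nm v : ℝ) ^ ((i : ℝ) / 2)) : ‖z * (nm v : ℂ) ^ (-((i : ℂ) / 2))‖ ≤ 1 := by
  rw [norm_mul, norm_pow_i]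
  calc ‖z‖ * (nm v : ℝ) ^ (-((i : ℝ) / 2)) ≤
        (nm v : ℝ) ^ ((i : ℝ) / 2) * (nm v : ℝ) ^ (-((i : ℝ) / 2)) :=
        mul_le_mul_of_nonneg_right h (by positivity)
    _ = 1 := by rw [← Real.rpow_add (nm_pos' v), add_neg_cancel, Real.rpow_zero]

/-- the normalised eigenvalues -/
noncomputable def ee (X : Set (MvPolynomial (Fin q) (MvPolynomial (Fin r) (𝓞 K)))) (d i N : ℕ)
    (t : Fin r → 𝓞 K) (v : HeightOneSpectrum (𝓞 K)) (j : Fin N) : ℂ :=
  frob X d i N t v j * ((nm v : ℂ) ^ (-((i : ℂ) / 2)))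

lemma loc_ee (X : Set (MvPolynomial (Fin q) (MvPolynomial (Fin r) (𝓞 K)))) (d i N : ℕ) :
    Loc (ee X d i N) where
  le := fun t v j => norm_mul_pow_le (frob_norm X d i N t v j)
  congr := fun t t' v h => by
    funext j
    unfold ee
    rw [frob_congr h]

end geo

end Pool.Agent.Y770.FA
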