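import Pool.Agent.Y770.FA.Avg

/-!
# Families over an affine space: a piece of the Euler product
-/

set_option autoImplicit false

open Finset NumberField IsDedekindDomain
open Pool.Agent.H921R2.TatePole (nm two_le_nm nm_summable)
open Pool.Agent.Y770.EP (Sys SP PR mem_PR Good)
open Pool.Agent.Y770.FM (nm_pos' one_le_nm FN mem_FN GG mem_GG FP mem_FP card_FP nm_mem sum_large
  Z1 Z2 Z1_nonneg Z2_nonneg summable_two norm_sum_le_card norm_sum_γ fc el fc_eq el_sub el_le norm_q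
  half_of_four half_of_one)

namespace Pool.Agent.Y770.FA

section nf
variable {K : Type} [Field K] [NumberField K] {r N M : ℕ}

/-- the coefficients -/
noncomputable def gp (e : (Fin r → 𝓞 K) → HeightOneSpectrum (𝓞 K) → Fin N → ℂ)
    (γ : HeightOneSpectrum (𝓞 K) → Fin M → ℂ) (b : Fin r → 𝓞 K) (k : ℕ) (p : ℕ) (n : Fin r → ℤ) : ℂ :=
  ∑ v ∈ FP K p, DS e k (pt b n) v * ∑ l, γ v l

variable {e : (Fin r → 𝓞 K) → HeightOneSpectrum (𝓞 K) → Fin N → ℂ}
  {γ : HeightOneSpectrum (𝓞 K) → Fin M → ℂ}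

lemma sys_gp (he : Loc e) (hγ : ∀ v l, ‖γ v l‖ ≤ 1) (b : Fin r → 𝓞 K) {k : ℕ} (hk : k < r)
    (n : Fin r → ℤ) :
    Sys (Module.finrank ℚ K * (2 * (N * M)) + 1)
      (fun p m => gp e γ b k p (Function.update n ⟨k, hk⟩ m)) := by
  refine ⟨fun p hp m => ?_, fun p hp => ?_, fun p hp m => ?_⟩
  · unfold gp
    refine Finset.sum_congr rfl fun v hv => ?_
    rw [mem_FP] at hv
    rw [he.DS_per k b n ⟨k, hk⟩ m hv]
  · unfold gp
    rw [Finset.sum_comm]
    refine Finset.sum_eq_zero fun v hv => ?_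
    rw [mem_FP] at hv
    rw [← Finset.sum_mul, he.DS_mean hk b n hp hv, zero_mul]
  · unfold gp
    refine (norm_sum_le _ _).trans ?_
    refine (Finset.sum_le_card_nsmul _ _ (2 * (N * M) : ℝ) fun v _ => ?_).trans ?_
    · rw [norm_mul]
      calc _ ≤ (2 * (N : ℝ)) * M :=
            mul_le_mul (he.DS_le _ _ _) (norm_sum_γ hγ v) (norm_nonneg _) (by positivity)
        _ = _ := by ring
    · rw [nsmul_eq_mul]
      have h1 : ((FP K p).card : ℝ) ≤ Module.finrank ℚ K := by exact_mod_cast card_FP hp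
      have h2 : (0 : ℝ) ≤ 2 * (N * M) := by positivity
      nlinarith

/-- the sums over the primes of degree one as sums over the rational primes -/
lemma sum_deg_one (e : (Fin r → 𝓞 K) → HeightOneSpectrum (𝓞 K) → Fin N → ℂ)
    (γ : HeightOneSpectrum (𝓞 K) → Fin M → ℂ) (b : Fin r → 𝓞 K) (n : Fin r → ℤ) (s : ℂ) (y x : ℕ) :
    ∑ v ∈ (GG K y x).filter fun v => (nm v).Prime,
      (tr e (pt b n) v - mm e v) * (∑ l, γ v l) * (nm v : ℂ) ^ (-s) =
    ∑ k ∈ range r, SP (fun p => gp e γ b k p n) s y x := by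
  classical
  have h1 : ∀ k, SP (fun p => gp e γ b k p n) s y x =
      ∑ v ∈ (GG K y x).filter fun v => (nm v).Prime,
        DS e k (pt b n) v * (∑ l, γ v l) * (nm v : ℂ) ^ (-s) := by
    intro k
    unfold SP
    rw [← Finset.sum_fiberwise_of_maps_to (g := fun v : HeightOneSpectrum (𝓞 K) => nm v)
      (t := PR y x)]
    · refine Finset.sum_congr rfl fun p hp => ?_
      obtain ⟨⟨hp1, hp2⟩, hpp⟩ := mem_PR.1 hp
      unfold gp
      rw [Finset.sum_mul]
      refine Finset.sum_congr ?_ fun v hv => ?_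
      · ext v
        simp only [mem_filter, mem_GG, mem_FP]
        constructor
        · intro h
          rw [h]
          exact ⟨⟨⟨hp1, hp2⟩, hpp⟩, rfl⟩
        · rintro ⟨_, h⟩; exact h
      · rw [(mem_filter.1 hv).2]
    · intro v hv
      rw [mem_filter, mem_GG] at hv
      exact mem_PR.2 hv
  rw [Finset.sum_congr rfl fun k _ => h1 k, Finset.sum_comm]
  refine Finset.sum_congr rfl fun v _ => ?_
  rw [← DS_sum, Finset.sum_mul, Finset.sum_mul]

lemma dev_le (he : Loc e) (hγ : ∀ v l, ‖γ v l‖ ≤ 1) (t : Fin r → 𝓞 K)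
    (v : HeightOneSpectrum (𝓞 K)) : ‖(tr e t v - mm e v) * ∑ l, γ v l‖ ≤ 2 * (N * M) := by
  rw [norm_mul]
  have h1 : ‖tr e t v - mm e v‖ ≤ 2 * N := by
    refine (norm_sub_le _ _).trans ?_
    linarith [he.tr_le t v, he.mm_le v]
  calc ‖tr e t v - mm e v‖ * ‖∑ l, γ v l‖ ≤ (2 * N) * M :=
        mul_le_mul h1 (norm_sum_γ hγ v) (norm_nonneg _) (by positivity)
    _ = _ := by ring

/-- the logarithm of the Euler factor without the mean value -/
noncomputable def ED (e : (Fin r → 𝓞 K) → HeightOneSpectrum (𝓞 K) → Fin N → ℂ)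
    (γ : HeightOneSpectrum (𝓞 K) → Fin M → ℂ) (t : Fin r → 𝓞 K) (s : ℂ)
    (v : HeightOneSpectrum (𝓞 K)) : ℂ :=
  el (e t v) (γ v) v s - mm e v * (∑ l, γ v l) * (nm v : ℂ) ^ (-s)

/-- **The logarithm of a piece of the Euler product.** -/
theorem strip_log (he : Loc e) (hγ : ∀ v l, ‖γ v l‖ ≤ 1) {b : Fin r → 𝓞 K} {δ c : ℝ} (hδ : 0 < δ)
    {T : ℕ} {n : Fin r → ℤ} (hG : ∀ k < r, Good δ c T fun p => gp e γ b k p n) {s : ℂ}
    (hs : 1 / 2 + δ ≤ s.re) (hs2 : |s.im| ≤ (T : ℝ) ^ c) {y x : ℕ} (hy4 : 4 ≤ y)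
    (hy : (Real.log T) ^ (4 / δ) ≤ y) (hx : (x : ℝ) ≤ (T : ℝ) ^ c) :
    ‖∑ v ∈ GG K y x, ED e γ (pt b n) s v‖ ≤
      (r + ((N * M) * Z1 K δ + 2 * (N * M) * Z2 K δ)) * (y : ℝ) ^ (-(δ / 16)) := by
  classical
  set t : Fin r → 𝓞 K := pt b n with ht
  set h : HeightOneSpectrum (𝓞 K) → ℂ := fun v =>
    (tr e t v - mm e v) * (∑ l, γ v l) * (nm v : ℂ) ^ (-s) with hh
  have hy1 : 1 ≤ y := by omega
  have hyr : (1 : ℝ) ≤ y := by exact_mod_cast hy1
  have hmain2 : ‖∑ v ∈ (GG K y x).filter fun v => (nm v).Prime, h v‖ ≤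
      r * (y : ℝ) ^ (-(δ / 16)) := by
    rw [show ∑ v ∈ (GG K y x).filter fun v => (nm v).Prime, h v =
      ∑ k ∈ range r, SP (fun p => gp e γ b k p n) s y x from sum_deg_one e γ b n s y x]
    refine (norm_sum_le _ _).trans ?_
    refine (Finset.sum_le_card_nsmul _ _ ((y : ℝ) ^ (-(δ / 16))) fun k hk =>
      hG k (mem_range.1 hk) s hs hs2 y x hy hx).trans ?_
    rw [card_range, nsmul_eq_mul]
  have herr1 : ‖∑ v ∈ GG K y x, (ED e γ t s v - h v)‖ ≤ (N * M) * Z1 K δ * (y : ℝ) ^ (-(δ / 2)) := by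
    refine (norm_sum_le _ _).trans ?_
    refine (Finset.sum_le_sum (g := fun v : HeightOneSpectrum (𝓞 K) =>
      (N * M) * (nm v : ℝ) ^ (-(2 * s.re))) fun v hv => ?_).trans ?_
    · rw [mem_GG] at hv
      have h1 : ED e γ t s v - h v = el (e t v) (γ v) v s -
          (∑ j, e t v j) * (∑ l, γ v l) * (nm v : ℂ) ^ (-s) := by
        rw [hh]
        unfold ED tr
        ring
      rw [h1]
      exact el_sub (he.le t v) (hγ v) (half_of_four (by omega) (by linarith))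
    · refine sum_large (x := N * M) (θ := δ / 2) (by positivity) (fun v => by positivity)
        (nm_summable (x := 1 + δ / 2) (by linarith)) (fun v => ?_) (by positivity) hy1 _ fun v hv => ?_
      · refine mul_le_mul_of_nonneg_left ?_ (by positivity)
        rw [← Real.rpow_add (nm_pos' v)]
        exact Real.rpow_le_rpow_of_exponent_le (one_le_nm v) (by linarith)
      · rw [mem_GG] at hv
        exact hv.1
  have herr2 : ‖∑ v ∈ (GG K y x).filter fun v => ¬ (nm v).Prime, h v‖ ≤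
      2 * (N * M) * Z2 K δ * (y : ℝ) ^ (-(δ / 2)) := by
    refine (norm_sum_le _ _).trans ?_
    refine (Finset.sum_le_sum (g := fun v : HeightOneSpectrum (𝓞 K) =>
      if (nm v).Prime then (0 : ℝ) else 2 * (N * M) * (nm v : ℝ) ^ (-s.re)) fun v hv => ?_).trans ?_
    · rw [mem_filter] at hv
      rw [if_neg hv.2, hh]
      dsimp only
      rw [norm_mul, norm_q]
      exact mul_le_mul_of_nonneg_right (dev_le he hγ t v) (by positivity)
    · refine sum_large (x := 2 * (N * M)) (θ := δ / 2) (by positivity)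
        (fun v => by split_ifs <;> positivity)
        (summable_two (x := 1 / 2 + δ / 2) (by linarith)) (fun v => ?_) (by positivity) hy1 _
        fun v hv => ?_
      · split_ifs with hp
        · simp
        · refine mul_le_mul_of_nonneg_left ?_ (by positivity)
          rw [← Real.rpow_add (nm_pos' v)]
          exact Real.rpow_le_rpow_of_exponent_le (one_le_nm v) (by linarith)
      · rw [mem_filter, mem_GG] at hv
        exact hv.1.1
  have hdec : ∑ v ∈ GG K y x, ED e γ t s v =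
      (∑ v ∈ GG K y x, (ED e γ t s v - h v)) +
      (∑ v ∈ (GG K y x).filter fun v => (nm v).Prime, h v) +
      ∑ v ∈ (GG K y x).filter fun v => ¬ (nm v).Prime, h v := by
    rw [add_assoc, Finset.sum_filter_add_sum_filter_not, Finset.sum_sub_distrib, sub_add_cancel]
  rw [hdec]
  have hy16 : (y : ℝ) ^ (-(δ / 2)) ≤ (y : ℝ) ^ (-(δ / 16)) :=
    Real.rpow_le_rpow_of_exponent_le hyr (by linarith)
  have hz1 := Z1_nonneg (K := K) δ
  have hz2 := Z2_nonneg (K := K) δ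
  have f1 : (N * M) * Z1 K δ * (y : ℝ) ^ (-(δ / 2)) ≤ (N * M) * Z1 K δ * (y : ℝ) ^ (-(δ / 16)) :=
    mul_le_mul_of_nonneg_left hy16 (by positivity)
  have f2 : 2 * (N * M) * Z2 K δ * (y : ℝ) ^ (-(δ / 2)) ≤
      2 * (N * M) * Z2 K δ * (y : ℝ) ^ (-(δ / 16)) := mul_le_mul_of_nonneg_left hy16 (by positivity)
  calc _ ≤ _ + _ := norm_add_le _ _
    _ ≤ (_ + _) + _ := by gcongr; exact norm_add_le _ _
    _ ≤ ((N * M) * Z1 K δ * (y : ℝ) ^ (-(δ / 16)) + r * (y : ℝ) ^ (-(δ / 16))) +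
          2 * (N * M) * Z2 K δ * (y : ℝ) ^ (-(δ / 16)) :=
        add_le_add (add_le_add (herr1.trans f1) hmain2) (herr2.trans f2)
    _ = _ := by ring

lemma ED_le (he : Loc e) (hγ : ∀ v l, ‖γ v l‖ ≤ 1) {t : Fin r → 𝓞 K} {s : ℂ} {ε : ℝ} (hε : 0 ≤ ε)
    (hs : 1 + ε ≤ s.re) (v : HeightOneSpectrum (𝓞 K)) :
    ‖ED e γ t s v‖ ≤ 3 * (N * M) * (nm v : ℝ) ^ (-(1 + ε)) := by
  have h1 : (nm v : ℝ) ^ (-s.re) ≤ (nm v : ℝ) ^ (-(1 + ε)) :=
    Real.rpow_le_rpow_of_exponent_le (one_le_nm v) (by linarith)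
  have h2 := el_le (v := v) (s := s) (he.le t v) (hγ v) (half_of_one (by linarith))
  have h3 : ‖mm e v * (∑ l, γ v l) * (nm v : ℂ) ^ (-s)‖ ≤ (N * M) * (nm v : ℝ) ^ (-s.re) := by
    rw [norm_mul, norm_mul, norm_q]
    exact mul_le_mul_of_nonneg_right (mul_le_mul (he.mm_le v) (norm_sum_γ hγ v) (norm_nonneg _)
      (by positivity)) (by positivity)
  unfold ED
  refine (norm_sub_le _ _).trans ((add_le_add h2 h3).trans ?_)
  have h4 : (0 : ℝ) ≤ 3 * (N * M) := by positivity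
  nlinarith

lemma ED_summable (he : Loc e) (hγ : ∀ v l, ‖γ v l‖ ≤ 1) {t : Fin r → 𝓞 K} {s : ℂ}
    (hs : 1 < s.re) : Summable (ED e γ t s) :=
  Summable.of_norm_bounded ((nm_summable (x := 1 + (s.re - 1)) (by linarith)).mul_left
    (3 * ((N : ℝ) * M))) (ED_le he hγ (by linarith) (by linarith))

lemma mean_summable (he : Loc e) (hγ : ∀ v l, ‖γ v l‖ ≤ 1) {s : ℂ}
    (hs : 1 < s.re) : Summable fun v => mm e v * (∑ l, γ v l) * (nm v : ℂ) ^ (-s) := by
  refine Summable.of_norm_bounded ((nm_summable (x := s.re) hs).mul_left ((N : ℝ) * M)) fun v => ?_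
  rw [norm_mul, norm_mul, norm_q]
  exact mul_le_mul_of_nonneg_right (mul_le_mul (he.mm_le v) (norm_sum_γ hγ v) (norm_nonneg _)
      (by positivity)) (by positivity)

/-- the tail of the logarithm -/
lemma tail_le (he : Loc e) (hγ : ∀ v l, ‖γ v l‖ ≤ 1) {t : Fin r → 𝓞 K} {s : ℂ} {C ε : ℝ}
    (hε : 0 < ε)
    (hsum : Summable fun v : HeightOneSpectrum (𝓞 K) => Real.log (nm v) * (nm v : ℝ) ^ (-(1 + ε)))
    (hC : ε * ∑' v : HeightOneSpectrum (𝓞 K), Real.log (nm v) * (nm v : ℝ) ^ (-(1 + ε)) ≤ C)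
    (hs : 1 + ε ≤ s.re) {z : ℕ} (hz : 2 ≤ z) :
    ‖∑' v, ED e γ t s v - ∑ v ∈ FN K z, ED e γ t s v‖ ≤ 3 * (N * M) * (C / ε) / Real.log z := by
  classical
  have h1 := ED_summable (t := t) he hγ (s := s) (by linarith)
  have hz1 : (1 : ℝ) < z := by exact_mod_cast (by omega : 1 < z)
  have hlz : 0 < Real.log z := Real.log_pos hz1
  have h2 : ∑' v, ED e γ t s v - ∑ v ∈ FN K z, ED e γ t s v =
      ∑' v, (if v ∈ FN K z then 0 else ED e γ t s v) := by
    have h3 : ∑ v ∈ FN K z, ED e γ t s v = ∑' v, (if v ∈ FN K z then ED e γ t s v else 0) := by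
      rw [tsum_eq_sum (s := FN K z) (fun v hv => if_neg hv)]
      exact Finset.sum_congr rfl fun v hv => (if_pos hv).symm
    have h4 : Summable fun v => (if v ∈ FN K z then ED e γ t s v else 0) :=
      summable_of_ne_finset_zero (s := FN K z) fun v hv => if_neg hv
    rw [h3, ← h1.tsum_sub h4]
    refine tsum_congr fun v => ?_
    split_ifs
    · rw [sub_self]
    · rw [sub_zero]
  rw [h2]
  have h5 : ∀ v : HeightOneSpectrum (𝓞 K), ‖(if v ∈ FN K z then 0 else ED e γ t s v : ℂ)‖ ≤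
      3 * (N * M) / Real.log z * (Real.log (nm v) * (nm v : ℝ) ^ (-(1 + ε))) := by
    intro v
    have hlq : 0 ≤ Real.log (nm v) := Real.log_nonneg (one_le_nm v)
    split_ifs with hv
    · rw [norm_zero]
      positivity
    · rw [mem_FN, not_le] at hv
      refine (ED_le he hγ hε.le hs v).trans ?_
      have h6 : Real.log z ≤ Real.log (nm v) :=
        Real.log_le_log (by linarith) (by exact_mod_cast hv.le)
      have h7 : (0 : ℝ) ≤ 3 * (N * M) * (nm v : ℝ) ^ (-(1 + ε)) := by positivity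
      calc 3 * (N * M) * (nm v : ℝ) ^ (-(1 + ε)) = 3 * (N * M) * (nm v : ℝ) ^ (-(1 + ε)) * 1 := by ring
        _ ≤ 3 * (N * M) * (nm v : ℝ) ^ (-(1 + ε)) * (Real.log (nm v) / Real.log z) :=
            mul_le_mul_of_nonneg_left ((one_le_div hlz).2 h6) h7
        _ = _ := by ring
  have h8 := tsum_of_norm_bounded (hsum.mul_left (3 * (N * M) / Real.log z)).hasSum h5
  refine h8.trans ?_
  rw [tsum_mul_left]
  have h9 : ∑' v : HeightOneSpectrum (𝓞 K), Real.log (nm v) * (nm v : ℝ) ^ (-(1 + ε)) ≤ C / ε := by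
    rw [le_div_iff₀ hε, mul_comm]
    exact hC
  calc 3 * (N * M) / Real.log z *
        ∑' v : HeightOneSpectrum (𝓞 K), Real.log (nm v) * (nm v : ℝ) ^ (-(1 + ε))
      ≤ 3 * (N * M) / Real.log z * (C / ε) := mul_le_mul_of_nonneg_left h9 (by positivity)
    _ = _ := by ring

end nf

end Pool.Agent.Y770.FA
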